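import Pool.Agent.KCQ.Stmts3
import Pool.Agent.KCG.GE
import Pool.Agent.KCG.GFIN

/-!
# EXW version 3, module CHA: paths with bounded gaps, algebra
-/

set_option autoImplicit false

namespace Pool.Agent.KCG

open Finset Pool.Agent.Lib27 Pool.Agent.SapR Pool.Agent.Gap Pool.Agent.FL Filter Topology Pool.Agent.EXW
  Pool.Agent.AreaLaw MeasureTheory
open Pool.Agent.KCG (mr)
open Pool.Agent.KCS (airyMoment kap)
open scoped NNReal ENNReal

namespace CHAx

/-! ### Moments -/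

lemma mr_supp (r : ℕ) (P : Polynomial ℝ) :
    mr r P = ∑ m ∈ P.support, P.coeff m * (m : ℝ) ^ r := rfl

lemma mr_add (r : ℕ) (P Q : Polynomial ℝ) : mr r (P + Q) = mr r P + mr r Q :=
  Polynomial.sum_add_index P Q _ (fun _ => by simp) (fun _ _ _ => by ring)

lemma mr_le (r d : ℕ) (P : Polynomial ℝ) (hP : ∀ j, 0 ≤ P.coeff j) (hd : P.natDegree ≤ d) :
    mr r P ≤ (d : ℝ) ^ r * P.eval 1 := by
  rw [mr_supp, Polynomial.eval_eq_sum, Polynomial.sum, Finset.mul_sum]
  refine Finset.sum_le_sum fun m hm => ?_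
  have h1 : m ≤ d := (Polynomial.le_natDegree_of_mem_supp m hm).trans hd
  have h2 : (m : ℝ) ^ r ≤ (d : ℝ) ^ r :=
    pow_le_pow_left₀ (Nat.cast_nonneg m) (by exact_mod_cast h1) r
  rw [one_pow, mul_one, mul_comm]
  exact mul_le_mul_of_nonneg_right h2 (hP m)

lemma eval_nonneg (P : Polynomial ℝ) (hP : ∀ j, 0 ≤ P.coeff j) : 0 ≤ P.eval 1 := by
  rw [Polynomial.eval_eq_sum, Polynomial.sum]
  exact Finset.sum_nonneg fun m _ => by rw [one_pow, mul_one]; exact hP m

/-! ### The recursion -/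

/-- The right hand side of the recursion without source. -/
noncomputable def rcn (G : GapKernel) (P : ℕ → ℤ → Polynomial ℝ) (n : ℕ) (g : ℤ) :
    Polynomial ℝ :=
  ∑ i ∈ G.S, if i.1 ≤ n then
      ∑ g' ∈ Icc (g - G.R) (g + G.R),
        Polynomial.C (G.K i g g') * Polynomial.X ^ ((i.2 : ℤ) * (g + g')).toNat * P (n - i.1) g'
      else 0

variable {G : GapKernel}

lemma K_zero (hL : Loc G) (i : ℕ × ℕ) (g g' : ℤ) (h : 2 * (i.1 : ℤ) < |g' - g|) :
    G.K i g g' = 0 :=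
  le_antisymm ((G.K_le i g g').trans (hL.T_loc i _ h).le) (G.K_nonneg i g g')

lemma rcn_nonneg {P : ℕ → ℤ → Polynomial ℝ} {n : ℕ}
    (hP : ∀ m < n, ∀ g j, 0 ≤ (P m g).coeff j) (g : ℤ) (j : ℕ) :
    0 ≤ (rcn G P n g).coeff j := by
  rw [rcn, Polynomial.finsetSum_coeff]
  refine Finset.sum_nonneg fun i hi => ?_
  have hpos := (G.pos_mem i hi).1
  split_ifs with hin
  · rw [Polynomial.finsetSum_coeff]
    refine Finset.sum_nonneg fun g' _ => ?_
    rw [mul_assoc, Polynomial.coeff_C_mul, Polynomial.coeff_X_pow_mul']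
    refine mul_nonneg (G.K_nonneg _ _ _) ?_
    split_ifs
    · exact hP (n - i.1) (by omega) _ _
    · exact le_rfl
  · simp

lemma rcn_zero (hL : Loc G) {P : ℕ → ℤ → Polynomial ℝ} {n : ℕ}
    (hP : ∀ m < n, ∀ g' : ℤ, 2 * (m : ℤ) < g' → P m g' = 0) {g : ℤ} (hg : 2 * (n : ℤ) < g) :
    rcn G P n g = 0 := by
  refine Finset.sum_eq_zero fun i hi => ?_
  have hpos := (G.pos_mem i hi).1
  split_ifs with hin
  · refine Finset.sum_eq_zero fun g' _ => ?_
    by_cases h : 2 * (i.1 : ℤ) < |g' - g|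
    · rw [K_zero hL i g g' h, map_zero, zero_mul, zero_mul]
    · have h1 := abs_le.1 (not_lt.1 h)
      have h2 : ((n - i.1 : ℕ) : ℤ) = (n : ℤ) - i.1 := by omega
      rw [hP (n - i.1) (by omega) g' (by omega), mul_zero]
  · rfl

lemma term_deg (a : ℝ) (e : ℕ) (p : Polynomial ℝ) :
    (Polynomial.C a * Polynomial.X ^ e * p).natDegree ≤ e + p.natDegree := by
  refine Polynomial.natDegree_mul_le.trans (Nat.add_le_add_right ?_ _)
  exact Polynomial.natDegree_C_mul_X_pow_le a e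

lemma rcn_deg (hL : Loc G) {P : ℕ → ℤ → Polynomial ℝ} {n : ℕ}
    (hz : ∀ m < n, ∀ g' : ℤ, 2 * (m : ℤ) < g' → P m g' = 0)
    (hd : ∀ m < n, ∀ g' : ℤ, (P m g').natDegree ≤ 4 * m ^ 2) (g : ℤ) :
    (rcn G P n g).natDegree ≤ 4 * n ^ 2 := by
  refine Polynomial.natDegree_sum_le_of_forall_le _ _ fun i hi => ?_
  have hpos := (G.pos_mem i hi).1
  have hle := hL.h_le i hi
  split_ifs with hin
  · refine Polynomial.natDegree_sum_le_of_forall_le _ _ fun g' _ => ?_
    by_cases h : 2 * (i.1 : ℤ) < |g' - g|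
    · rw [K_zero hL i g g' h, map_zero, zero_mul, zero_mul, Polynomial.natDegree_zero]
      exact Nat.zero_le _
    by_cases h' : 2 * ((n - i.1 : ℕ) : ℤ) < g'
    · rw [hz (n - i.1) (by omega) g' h', mul_zero, Polynomial.natDegree_zero]
      exact Nat.zero_le _
    refine (term_deg _ _ _).trans ?_
    have h1 := hd (n - i.1) (by omega) g'
    obtain ⟨m, hm⟩ : ∃ m, n = m + i.1 := ⟨n - i.1, by omega⟩
    have h2 : n - i.1 = m := by omega
    rw [h2] at h1 h' ⊢
    have h3 := abs_le.1 (not_lt.1 h)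
    have h4 : g + g' ≤ 4 * (m : ℤ) + 2 * i.1 := by omega
    have h5 : (i.2 : ℤ) * (g + g') ≤ (i.1 : ℤ) * (4 * (m : ℤ) + 2 * i.1) := by
      have h6 : (i.2 : ℤ) ≤ i.1 := by exact_mod_cast hle
      have h7 : (0 : ℤ) ≤ i.2 := Int.natCast_nonneg _
      have h8 : (0 : ℤ) ≤ m := Int.natCast_nonneg _
      calc (i.2 : ℤ) * (g + g') ≤ (i.2 : ℤ) * (4 * (m : ℤ) + 2 * i.1) :=
            mul_le_mul_of_nonneg_left h4 h7
        _ ≤ _ := mul_le_mul_of_nonneg_right h6 (by positivity)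
    have h6 : ((i.2 : ℤ) * (g + g')).toNat ≤ i.1 * (4 * m + 2 * i.1) := by
      rw [Int.toNat_le]
      push_cast
      exact h5
    rw [hm]
    nlinarith
  · rw [Polynomial.natDegree_zero]
    exact Nat.zero_le _

lemma rcn_deg2 (hL : Loc G) {P : ℕ → ℤ → Polynomial ℝ} {n g0 : ℕ}
    (hz : ∀ m < n, ∀ g' : ℤ, (g0 : ℤ) < g' → P m g' = 0)
    (hd : ∀ m < n, ∀ g' : ℤ, (P m g').natDegree ≤ 2 * g0 * m) (g : ℤ) (hg : g ≤ g0) :
    (rcn G P n g).natDegree ≤ 2 * g0 * n := by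
  refine Polynomial.natDegree_sum_le_of_forall_le _ _ fun i hi => ?_
  have hpos := (G.pos_mem i hi).1
  have hle := hL.h_le i hi
  split_ifs with hin
  · refine Polynomial.natDegree_sum_le_of_forall_le _ _ fun g' _ => ?_
    by_cases h' : (g0 : ℤ) < g'
    · rw [hz (n - i.1) (by omega) g' h', mul_zero, Polynomial.natDegree_zero]
      exact Nat.zero_le _
    refine (term_deg _ _ _).trans ?_
    have h1 := hd (n - i.1) (by omega) g'
    obtain ⟨m, hm⟩ : ∃ m, n = m + i.1 := ⟨n - i.1, by omega⟩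
    have h2 : n - i.1 = m := by omega
    rw [h2] at h1 ⊢
    have h4 : g + g' ≤ 2 * (g0 : ℤ) := by omega
    have h5 : (i.2 : ℤ) * (g + g') ≤ (i.1 : ℤ) * (2 * (g0 : ℤ)) := by
      have h6 : (i.2 : ℤ) ≤ i.1 := by exact_mod_cast hle
      have h7 : (0 : ℤ) ≤ i.2 := Int.natCast_nonneg _
      calc (i.2 : ℤ) * (g + g') ≤ (i.2 : ℤ) * (2 * (g0 : ℤ)) :=
            mul_le_mul_of_nonneg_left h4 h7
        _ ≤ _ := mul_le_mul_of_nonneg_right h6 (by positivity)
    have h6 : ((i.2 : ℤ) * (g + g')).toNat ≤ i.1 * (2 * g0) := by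
      rw [Int.toNat_le]
      push_cast
      exact h5
    rw [hm]
    nlinarith
  · rw [Polynomial.natDegree_zero]
    exact Nat.zero_le _

lemma rcn_sub (P Q : ℕ → ℤ → Polynomial ℝ) (n : ℕ) (g : ℤ) :
    rcn G (fun n g => P n g - Q n g) n g = rcn G P n g - rcn G Q n g := by
  rw [rcn, rcn, rcn, ← Finset.sum_sub_distrib]
  refine Finset.sum_congr rfl fun i _ => ?_
  split_ifs
  · rw [← Finset.sum_sub_distrib]
    exact Finset.sum_congr rfl fun g' _ => mul_sub _ _ _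
  · rw [sub_zero]

/-- The paths with a gap larger than `g0`. -/
noncomputable def UU (G : GapKernel) (B : ℕ → ℤ → Polynomial ℝ) (g0 : ℕ) (n : ℕ) (g : ℤ) :
    Polynomial ℝ :=
  if g < 1 then 0 else if (g0 : ℤ) < g then B n g else
    ∑ i ∈ G.S, if h : 1 ≤ i.1 ∧ i.1 ≤ n then
      ∑ g' ∈ Icc (g - G.R) (g + G.R),
        Polynomial.C (G.K i g g') * Polynomial.X ^ ((i.2 : ℤ) * (g + g')).toNat *
          UU G B g0 (n - i.1) g'
      else 0
termination_by n
decreasing_by omega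

lemma UU_low (B : ℕ → ℤ → Polynomial ℝ) (g0 n : ℕ) (g : ℤ) (hg : g < 1) :
    UU G B g0 n g = 0 := by
  rw [UU, if_pos hg]

lemma UU_high (B : ℕ → ℤ → Polynomial ℝ) (g0 n : ℕ) (g : ℤ) (hg0 : 1 ≤ g0)
    (hg : (g0 : ℤ) < g) : UU G B g0 n g = B n g := by
  rw [UU, if_neg (by omega), if_pos hg]

lemma UU_rec (B : ℕ → ℤ → Polynomial ℝ) (g0 n : ℕ) (g : ℤ) (hg : 1 ≤ g)
    (hg2 : g ≤ (g0 : ℤ)) : UU G B g0 n g = rcn G (UU G B g0) n g := by
  rw [UU, if_neg (by omega), if_neg (by omega), rcn]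
  refine Finset.sum_congr rfl fun i hi => ?_
  have hpos := (G.pos_mem i hi).1
  by_cases h : i.1 ≤ n
  · rw [dif_pos ⟨hpos, h⟩, if_pos h]
  · rw [dif_neg (fun h' => h h'.2), if_neg h]

/-- The facts on `B` and `U`. -/
def Fct (P : ℕ → ℤ → Polynomial ℝ) (n : ℕ) (g : ℤ) : Prop :=
  (2 * (n : ℤ) < g → P n g = 0) ∧ (P n g).natDegree ≤ 4 * n ^ 2 ∧ ∀ j, 0 ≤ (P n g).coeff j

lemma fct_zero {P : ℕ → ℤ → Polynomial ℝ} {n : ℕ} {g : ℤ} (h : P n g = 0) : Fct P n g :=
  ⟨fun _ => h, by rw [h, Polynomial.natDegree_zero]; exact Nat.zero_le _,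
    fun j => by rw [h, Polynomial.coeff_zero]⟩

lemma fct_add (hL : Loc G) {P : ℕ → ℤ → Polynomial ℝ} {n : ℕ} {g : ℤ} {c : ℝ}
    (h : P n g = Polynomial.C c + rcn G P n g) (hc : 0 ≤ c) (hc0 : (n : ℤ) < g → c = 0)
    (ih : ∀ m < n, ∀ g, Fct P m g) : Fct P n g := by
  have h1 : ∀ j, 0 ≤ (rcn G P n g).coeff j := rcn_nonneg (fun m hm g j => (ih m hm g).2.2 j) g
  have h2 : (rcn G P n g).natDegree ≤ 4 * n ^ 2 :=
    rcn_deg hL (fun m hm g => (ih m hm g).1) (fun m hm g => (ih m hm g).2.1) g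
  refine ⟨fun hg => ?_, ?_, fun j => ?_⟩
  · rw [h, hc0 (by omega), map_zero, zero_add, rcn_zero hL (fun m hm g => (ih m hm g).1) hg]
  · rw [h]
    refine (Polynomial.natDegree_add_le _ _).trans (max_le ?_ h2)
    rw [Polynomial.natDegree_C]
    exact Nat.zero_le _
  · rw [h, Polynomial.coeff_add, Polynomial.coeff_C]
    refine add_nonneg ?_ (h1 j)
    split_ifs
    · exact hc
    · exact le_rfl

lemma fct_B (hL : Loc G) {s : ℕ → ℤ → ℝ} {C0 : ℕ} (hs : IsCap C0 s)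
    (hs0 : ∀ (m : ℕ) (g : ℤ), (m : ℤ) < g → s m g = 0) {B : ℕ → ℤ → Polynomial ℝ}
    (hB : IsSol G s B) (n : ℕ) : ∀ g, Fct B n g := by
  induction n using Nat.strong_induction_on with
  | _ n ih =>
    intro g
    rcases lt_or_ge g 1 with hg | hg
    · exact fct_zero (hB.zero n g hg)
    · exact fct_add hL (hB.step n g hg) (hs.nonneg n g) (hs0 n g) ih

lemma fct_U (hL : Loc G) {B : ℕ → ℤ → Polynomial ℝ} (hB : ∀ n g, Fct B n g) (g0 : ℕ)
    (hg0 : 1 ≤ g0) (n : ℕ) : ∀ g, Fct (UU G B g0) n g := by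
  induction n using Nat.strong_induction_on with
  | _ n ih =>
    intro g
    rcases lt_or_ge g 1 with hg | hg
    · exact fct_zero (UU_low B g0 n g hg)
    · rcases lt_or_ge (g0 : ℤ) g with hg' | hg'
      · have h1 := UU_high (G := G) B g0 n g hg0 hg'
        have h2 := hB n g
        unfold Fct at h2 ⊢
        rw [h1]
        exact h2
      · refine fct_add hL (c := 0) ?_ le_rfl (fun _ => rfl) ih
        rw [map_zero, zero_add]
        exact UU_rec B g0 n g hg hg'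

/-- The facts on the difference. -/
lemma fct_D (hL : Loc G) {s : ℕ → ℤ → ℝ} {C0 : ℕ} (hs : IsCap C0 s)
    {B : ℕ → ℤ → Polynomial ℝ} (hB : IsSol G s B) (g0 : ℕ) (hg0 : 1 ≤ g0) (n : ℕ) :
    ∀ g : ℤ, ((g0 : ℤ) < g → B n g - UU G B g0 n g = 0) ∧
      (B n g - UU G B g0 n g).natDegree ≤ 2 * g0 * n ∧
      ∀ j, 0 ≤ (B n g - UU G B g0 n g).coeff j := by
  induction n using Nat.strong_induction_on with
  | _ n ih =>
    intro g
    rcases lt_or_ge g 1 with hg | hg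
    · rw [hB.zero n g hg, UU_low B g0 n g hg, sub_zero]
      exact ⟨fun _ => rfl, by rw [Polynomial.natDegree_zero]; exact Nat.zero_le _,
        fun j => by rw [Polynomial.coeff_zero]⟩
    · rcases lt_or_ge (g0 : ℤ) g with hg' | hg'
      · rw [UU_high B g0 n g hg0 hg', sub_self]
        exact ⟨fun _ => rfl, by rw [Polynomial.natDegree_zero]; exact Nat.zero_le _,
          fun j => by rw [Polynomial.coeff_zero]⟩
      · have h0 : B n g - UU G B g0 n g = Polynomial.C (s n g) +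
            rcn G (fun n g => B n g - UU G B g0 n g) n g := by
          rw [rcn_sub, ← UU_rec B g0 n g hg hg', hB.step n g hg, ← add_sub_assoc]
          rfl
        refine ⟨fun h => absurd h (not_lt.2 hg'), ?_, fun j => ?_⟩
        · rw [h0]
          refine (Polynomial.natDegree_add_le _ _).trans (max_le ?_ ?_)
          · rw [Polynomial.natDegree_C]
            exact Nat.zero_le _
          · exact rcn_deg2 hL (P := fun n g => B n g - UU G B g0 n g)
              (fun m hm g => (ih m hm g).1) (fun m hm g => (ih m hm g).2.1) g hg'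
        · rw [h0, Polynomial.coeff_add, Polynomial.coeff_C]
          refine add_nonneg ?_ (rcn_nonneg (P := fun n g => B n g - UU G B g0 n g)
            (fun m hm g j => (ih m hm g).2.2 j) g j)
          split_ifs
          · exact hs.nonneg n g
          · exact le_rfl

/-! ### Closing -/

lemma close_nonneg {C0 : ℕ} {t : ℕ → ℤ → ℝ} (ht : ∀ m g, 0 ≤ t m g)
    {P : ℕ → ℤ → Polynomial ℝ} (hP : ∀ n g j, 0 ≤ (P n g).coeff j) (n j : ℕ) :
    0 ≤ (closeP C0 t P n).coeff j := by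
  unfold closeP
  rw [Polynomial.finsetSum_coeff]
  refine Finset.sum_nonneg fun m _ => ?_
  rw [Polynomial.finsetSum_coeff]
  refine Finset.sum_nonneg fun g _ => ?_
  rw [Polynomial.coeff_C_mul]
  exact mul_nonneg (ht m g) (hP _ _ _)

lemma close_deg {C0 : ℕ} {t : ℕ → ℤ → ℝ} {P : ℕ → ℤ → Polynomial ℝ} {n d : ℕ}
    (hP : ∀ m ≤ n, ∀ g, (P m g).natDegree ≤ d) : (closeP C0 t P n).natDegree ≤ d := by
  unfold closeP
  refine Polynomial.natDegree_sum_le_of_forall_le _ _ fun m _ =>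
    Polynomial.natDegree_sum_le_of_forall_le _ _ fun g _ => ?_
  exact (Polynomial.natDegree_C_mul_le _ _).trans (hP (n - m) (Nat.sub_le _ _) g)

lemma close_add {C0 : ℕ} {t : ℕ → ℤ → ℝ} (B U : ℕ → ℤ → Polynomial ℝ) (n : ℕ) :
    closeP C0 t B n = closeP C0 t (fun n g => B n g - U n g) n + closeP C0 t U n := by
  unfold closeP
  rw [← Finset.sum_add_distrib]
  refine Finset.sum_congr rfl fun m _ => ?_
  rw [← Finset.sum_add_distrib]
  refine Finset.sum_congr rfl fun g _ => ?_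
  rw [← mul_add, sub_add_cancel]

end CHAx

open CHAx in
theorem t_CHA : CHA_Stmt := by
  intro G hL C0 s t hs ht hs0 _ B hB
  have hF := fct_B hL hs hs0 hB
  refine ⟨close_nonneg ht.nonneg fun n g => (hF n g).2.2, fun g0 hg0 => ?_⟩
  have hU := fct_U hL hF g0 hg0
  have hD := fct_D hL hs hB g0 hg0
  refine ⟨UU G B g0, fun n g => UU_low B g0 n g, fun n g => UU_high B g0 n g hg0,
    fun n g => UU_rec B g0 n g, fun r n => ?_⟩
  have hn1 : ∀ j, 0 ≤ (closeP C0 t (fun n g => B n g - UU G B g0 n g) n).coeff j :=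
    close_nonneg ht.nonneg (fun n g => (hD n g).2.2) n
  have hn2 : ∀ j, 0 ≤ (closeP C0 t (UU G B g0) n).coeff j :=
    close_nonneg ht.nonneg (fun n g => (hU n g).2.2) n
  have hd1 : (closeP C0 t (fun n g => B n g - UU G B g0 n g) n).natDegree ≤ 2 * g0 * n :=
    close_deg fun m hm g => ((hD m g).2.1).trans (Nat.mul_le_mul_left _ hm)
  have hd2 : (closeP C0 t (UU G B g0) n).natDegree ≤ 8 * n ^ 2 :=
    close_deg fun m hm g => ((hU m g).2.1).trans
      (Nat.mul_le_mul (by norm_num) (Nat.pow_le_pow_left hm 2))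
  have h1 := mr_le r _ _ hn1 hd1
  have h2 := mr_le r _ _ hn2 hd2
  have h3 := eval_nonneg _ hn2
  rw [close_add B (UU G B g0) n, mr_add, Polynomial.eval_add]
  have e1 : ((2 * g0 * n : ℕ) : ℝ) = 2 * (n : ℝ) * g0 := by push_cast; ring
  have e2 : ((8 * n ^ 2 : ℕ) : ℝ) = 8 * (n : ℝ) ^ 2 := by push_cast; ring
  rw [e1] at h1
  rw [e2] at h2
  have h4 : 0 ≤ (2 * (n : ℝ) * g0) ^ r * (closeP C0 t (UU G B g0) n).eval 1 := by positivity
  rw [mul_add]
  linarith

end Pool.Agent.KCG
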