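import Pool.Agent.KCQ.Stmts2
import Pool.Agent.EXW.Stmts3

/-!
# k-column-convex polygons (MP_f6626d_co), rates: all moments

Text of the statements `CHA`, `CHB`, `MOMA`, `MOMD`, `MOMC`, `MOMK` of `EXW/Stmts3.lean`; `mr r P`
is the moment of order `r` of the coefficients of `P` (`KCG.mr`), so `mr 0 P = P.eval 1` and
`mr 1 P = P.derivative.eval 1`. `FDX_Stmt`, `SMM_Stmt` are those of that file.
-/

set_option autoImplicit false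

namespace Pool.Agent.KCG

open Finset Pool.Agent.Gap Pool.Agent.FL Pool.Agent.EXW Filter Topology
open Pool.Agent.KCG (mr)
open Pool.Agent.KCS (airyMoment kap)

/-! ### Tails of the area of the closed model -/

/-- CHA (algebra). Paths whose gaps are all at most `g0`, and the rest `U`. PROOF.
`0 ≤ coeff` by strong induction on `n`. Put `U n g = B n g` for `g > g0`, `U n g = 0` for `g < 1`
and define `U n g` for `1 ≤ g ≤ g0` by recursion on `n` (`1 ≤ i.1`: `pos_mem`); nonnegative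
coefficients by induction. `BT = B - U` satisfies `BT n g = 0` for `g < 1` and for `g > g0`, and
`BT n g = C (s n g) + ∑ ...` (the recursion of `IsSol` with `BT`) for `1 ≤ g ≤ g0`; so nonnegative
coefficients and `natDegree (BT n g) ≤ 2 * g0 * n` (`i.2 ≤ i.1` by `Loc.h_le`, and only
`g' ≤ g0` contributes: `i.2 (g + g') ≤ 2 g0 i.1`). For `B`: `B n g = 0` if `g > 2 n` (`s n g ≠ 0` only for
`g ≤ n`; `K i g g' ≤ T i (g' - g) = 0` if `|g' - g| > 2 i.1`), so in the recursion the exponent is at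
most `i.1 * (2 n + 2 n)` and `natDegree (B n g) ≤ 4 n ^ 2` (`4 n i + 4 (n - i)^2 ≤ 4 n^2`); the same for `U`.
`closeP` is linear in the array, `mr r` is additive, and for a polynomial with nonnegative
coefficients and `natDegree ≤ d` : `mr r P ≤ d ^ r * P.eval 1`. -/
def CHA_Stmt : Prop := ∀ G : GapKernel, Loc G → ∀ (C0 : ℕ) (s t : ℕ → ℤ → ℝ),
  IsCap C0 s → IsCap C0 t → (∀ (m : ℕ) (g : ℤ), (m : ℤ) < g → s m g = 0) →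
  (∀ (m : ℕ) (g : ℤ), (m : ℤ) < g → t m g = 0) → ∀ B, IsSol G s B →
  (∀ n j, 0 ≤ (closeP C0 t B n).coeff j) ∧
  ∀ g0 : ℕ, 1 ≤ g0 → ∃ U : ℕ → ℤ → Polynomial ℝ,
    (∀ n (g : ℤ), g < 1 → U n g = 0) ∧ (∀ n (g : ℤ), (g0 : ℤ) < g → U n g = B n g) ∧
    (∀ n (g : ℤ), 1 ≤ g → g ≤ g0 → U n g = ∑ i ∈ G.S, if i.1 ≤ n then
      ∑ g' ∈ Icc (g - G.R) (g + G.R),
        Polynomial.C (G.K i g g') * Polynomial.X ^ ((i.2 : ℤ) * (g + g')).toNat * U (n - i.1) g'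
      else 0) ∧
    ∀ r n : ℕ, mr r (closeP C0 t B n) ≤ (2 * (n : ℝ) * g0) ^ r * (closeP C0 t B n).eval 1 +
      (8 * (n : ℝ) ^ 2) ^ r * (closeP C0 t U n).eval 1

/-- CHB (Chernoff bound). PROOF. `θ = 1 - 1/D`, `a n g = ρ^n (B n g).eval 1`. By strong induction
`a n g ≤ ∑_{m ≤ n} D θ^m ≤ D^2` : `ρ^n s n g ≤ D θ^n` (`ClsCap.dec`, `ClsCap.supp`) and the row sums
`∑_i ρ^i.1 ∑_g' K i g g' ≤ ∑_i ρ^i.1 ∑_d T i d = 1` (`K_le`, reindexing, `crit`). Let `0 ≤ τ ≤ 1/(8D)`.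
`∑_i ρ^i.1 ∑_d T i d exp(τ d) ≤ 1 + τ^2 D^K'` : by `T_even` replace `exp (τ d)` by
`cosh (τ d) ≤ 1 + (τ d)^2 exp |τ d|`, `|d| ≤ 2 i.1` (`T_loc`), and sum over `m = i.1` with `Cls.dec`:
`∑_m D θ^m 4 τ^2 m^2 exp(2 τ m)`, `θ exp(2τ) ≤ exp(-3/(4D)) ≤ 1 - 1/(4D)` or similar. Put
`ψ = D^K' τ^2`. CLAIM `ρ^n u n g ≤ D^2 exp(ψ n + τ (g - g0))` for `g ≥ 1`, by strong induction on `n`: for
`g > g0` it is `a n g ≤ D^2`; for `g ≤ g0` the recursion gives at most `D^2 exp(ψ n + τ (g - g0)) *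
∑_i ρ^i.1 ∑_d T i d exp(τ d - ψ i.1)`, `i.1 ≥ 1` and `(1 + ψ) exp(-ψ) ≤ 1`. Closing: `t m g ≠ 0` only for
`g ≤ m`, `ρ^m ∑_g t m g exp(τ g) ≤ exp(τ m) D θ^m`, and `∑_m D θ^m exp(τ m) ≤ 2 D^2`. So the left side is
at most `2 D^4 exp(D^K' τ^2 n - τ g0)`; take `τ = g0 / (2 D^K' n)`, which is `≤ 1/(8D)` since `g0 ≤ n`
(`K' ≥ 3`). (`n ≥ 1` since `g0 ≥ 1`.) -/
def CHB_Stmt : Prop := ∃ K : ℕ, ∀ D : ℝ, 2 ≤ D → ∀ G : GapKernel, Cls D (1 - D⁻¹) G →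
  ∀ (C0 : ℕ) (s t : ℕ → ℤ → ℝ), ClsCap D (1 - D⁻¹) G C0 s → ClsCap D (1 - D⁻¹) G C0 t →
  ∀ B, IsSol G s B → ∀ g0 : ℕ, 1 ≤ g0 → ∀ u : ℕ → ℤ → ℝ, (∀ n (g : ℤ), g < 1 → u n g = 0) →
    (∀ n (g : ℤ), (g0 : ℤ) < g → u n g = (B n g).eval 1) →
    (∀ n (g : ℤ), 1 ≤ g → g ≤ g0 → u n g = ∑ i ∈ G.S, if i.1 ≤ n then
      ∑ g' ∈ Icc (g - G.R) (g + G.R), G.K i g g' * u (n - i.1) g' else 0) →
    ∀ n : ℕ, g0 ≤ n → G.rho ^ n * ∑ m ∈ range (n + 1), ∑ g ∈ Icc (1 : ℤ) C0, t m g * u (n - m) g ≤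
      D ^ K * Real.exp (-((g0 : ℝ) ^ 2 / (D ^ K * n)))

/-- MOMA (from QRAT, CHA, CHB): moments of the area of the closed model, up to a power of `log n`.
PROOF. `P = closeP C0 t B n`, `ℓ = log n`, `p = n √n ρ^n P(1) ≥ D^-K1` (QRAT). Take
`g0 = ⌈D^K' √n ℓ⌉`, `K'` large; `g0 ≤ n` since `(D W)^K0 ≤ n` with `K0` large. CHA and CHB
(`u n g = (U n g).eval 1`, `(closeP C0 t U n).eval 1` is the double sum) give
`mr r P ≤ (2 n g0)^r P(1) + (8 n^2)^r ρ^-n D^K exp(-g0^2/(D^K n))`, `exp(-g0^2/(D^K n)) ≤ exp(-ℓ^2) ≤ n^-(2r+2)` for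
`ℓ ≥ 2 r + 2` (`n ≥ 4^K0`), and `ρ^-n = n √n P(1) / p ≤ D^K1 n √n P(1)`. -/
def MOMA_Stmt : Prop := ∀ r : ℕ, ∃ K0 K1 : ℕ, ∀ D : ℝ, 2 ≤ D → ∀ G : GapKernel,
  Cls D (1 - D⁻¹) G → ∀ (C0 : ℕ) (s t : ℕ → ℤ → ℝ) (Vs Vt : ℤ → ℝ) (B : ℕ → ℤ → Polynomial ℝ),
    ClsCap D (1 - D⁻¹) G C0 s → ClsCap D (1 - D⁻¹) G C0 t →
    CritSol D G (GE.sr G.rho C0 s) Vs → CritSol D G (GE.sr G.rho C0 t) Vt → IsSol G s B →
  ∀ (W : ℝ) (n n0 : ℕ), Sc0 K0 D W G n n0 → D ^ K0 ≤ W →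
    mr r (closeP C0 t B n) ≤
      D ^ K1 * ((n : ℝ) * Real.sqrt n * Real.log n) ^ r * (closeP C0 t B n).eval 1

/-! ### Moments from Laplace transforms -/

/-- MOMD (from QRAT, MOMA, CHA, FDX, SMM, QPAR): the scaled moments of the model and of the
staircase model. PROOF. `P = closeP C0 t B n`, `P0 = closeP 1 cap1 B0 n0`, `eps' = lam/(n0 √n0)`,
`eps = 2 sig2 eps' / hbar`. FDX for `P` at `eps` and for `P0` at `eps'` (coefficients nonnegative: CHA with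
`Cls.loc`, `ClsCap.cap`, `ClsCap.supp`; SMM), divided by `P(1)`, `P0(1)`:
`|∑_j ± C(r,j) P(exp(-j eps))/P(1) - eps^r mr r P / P(1)| ≤ r eps^(r+1) mr (r+1) P / P(1) ≤
D^K lam^(r+1) (log n)^(r+1)` by MOMA for `r + 1`, since `eps n √n ≤ D^K lam` (`Base.par_bounds` for
`sig2`, `hbar`; `n ≤ D^K1 n0` by QPAR with `eps = eps' = 0`); the staircase error is at most
`r lam^(r+1) C` with `C` absolute (the sequence of SMM for `r + 1` is bounded for `n0 ≥ 2`), `C ≤ 2^K ≤ D^K`.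
QRAT with the parameters `j eps`, `j eps'` (`j lam ≤ r ≤ W`) bounds the difference of the two
alternating sums by `2^r ((D W)^K1 / Gap.qn n + D^K1 / √W)`. Divide by `lam^r`; `1 ≤ log n` from `4^K0 ≤ n`,
`2^r ≤ D^r`. -/
def MOMD_Stmt : Prop := ∀ r : ℕ, ∃ K0 K1 : ℕ, ∀ D : ℝ, 2 ≤ D → ∀ G : GapKernel,
  Cls D (1 - D⁻¹) G → ∀ (C0 : ℕ) (s t : ℕ → ℤ → ℝ) (Vs Vt : ℤ → ℝ) (B : ℕ → ℤ → Polynomial ℝ),
    ClsCap D (1 - D⁻¹) G C0 s → ClsCap D (1 - D⁻¹) G C0 t →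
    CritSol D G (GE.sr G.rho C0 s) Vs → CritSol D G (GE.sr G.rho C0 t) Vt → IsSol G s B →
  ∀ (W : ℝ) (n n0 : ℕ) (lam : ℝ), Sc0 K0 D W G n n0 → D ^ K0 ≤ W → 0 < lam → lam ≤ 1 →
    |(2 * G.sig2 / (G.hbar * ((n0 : ℝ) * Real.sqrt n0))) ^ r *
        (mr r (closeP C0 t B n) / (closeP C0 t B n).eval 1)
      - mr r (closeP 1 cap1 B0 n0) /
        (((n0 : ℝ) * Real.sqrt n0) ^ r * (closeP 1 cap1 B0 n0).eval 1)|
      ≤ ((D * W) ^ K1 / Gap.qn n + D ^ K1 / Real.sqrt W) / lam ^ r +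
        D ^ K1 * (Real.log n) ^ (r + 1) * lam

/-- the moment of order `r` of `T / E[T]` under the weights -/
noncomputable def QModel.mom {D : ℕ → ℝ} (M : QModel D) (n r : ℕ) : ℝ :=
  ((∑ y : M.Omega n, M.wt n y * M.T n y ^ r) / M.W n) /
    ((∑ y : M.Omega n, M.wt n y * M.T n y) / M.W n) ^ r

/-- MOMC (from MOMD, MOMA, QRAT, SMM, QPAR): limits for the area polynomials of a sequence of
models. PROOF. `l n = log n + 2`, `n0 n = ⌊2 sig2 n / mbar⌋₊`, `lam n = (D n * l n)^-K3`,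
`W n = (D n * l n)^K4` (`K3`, then `K4` large, for each `r`): `Sc0 K0 (D n) (W n) (G n) n (n0 n)` and
`D^K0 ≤ W` hold eventually since `(D n)^j (l n)^j / n → 0` for all `j` (`Slow`), and the bounds of MOMD and
QRAT tend to zero. `n0 n → ∞` (QPAR: `n ≤ D^K1 n0`). So with `κ n = 2 sig2/(hbar n0 √n0)`:
`κ^r mr r P / P(1) → kap r / kap 0` for every `r` (MOMD, SMM), `kap 1 / kap 0 > 0` (`KCS.IDN`:
`kap_one`, `kap_zero_pos`); quotient and `KCS.IDN.kap_ratio` give (1). (2): `κ mr 1 P / P(1) ≥ c > 0` eventually,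
`1/κ ≥ D^-K n √n` (`par_bounds`, QPAR). (3) MOMA. (4) the first part of QRAT. -/
def MOMC_Stmt : Prop := ∀ D : ℕ → ℝ, Slow D → ∀ M : QModel D,
  (∀ r : ℕ, Tendsto (fun n : ℕ => (mr r (M.P n) / (M.P n).eval 1) /
    (mr 1 (M.P n) / (M.P n).eval 1) ^ r) atTop (𝓝 (airyMoment r))) ∧
  (∃ K : ℕ, ∀ᶠ n : ℕ in atTop, (D n ^ K)⁻¹ * ((n : ℝ) * Real.sqrt n) ≤
    mr 1 (M.P n) / (M.P n).eval 1) ∧
  (∀ r : ℕ, ∃ K : ℕ, ∀ᶠ n : ℕ in atTop, mr r (M.P n) / (M.P n).eval 1 ≤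
    D n ^ K * ((n : ℝ) * Real.sqrt n * Real.log n) ^ r) ∧
  ∃ K : ℕ, ∀ᶠ n : ℕ in atTop, (D n ^ K)⁻¹ ≤ ((n : ℝ) * Real.sqrt n) * (M.G n).rho ^ n *
    (M.P n).eval 1

/-- moments of the error of the area functional -/
def NearP {D : ℕ → ℝ} (M : QModel D) : Prop := ∀ p : ℕ, ∃ K : ℕ, ∀ᶠ n : ℕ in atTop,
  ∑ x ∈ M.good n, M.wt n x * |M.T n x - M.A n x| ^ p ≤
    (D n ^ K * n * Real.log n) ^ p * ∑ x ∈ M.good n, M.wt n x +
      D n ^ K * (M.c n / ((n : ℝ) ^ 2 * (M.G n).rho ^ n))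

/-- moments over the bad part -/
def BadP {D : ℕ → ℝ} (M : QModel D) : Prop := ∀ p : ℕ, ∀ᶠ n : ℕ in atTop,
  ∑ x : M.Omega n, M.wt n x * M.T n x ^ p - ∑ x ∈ M.good n, M.wt n x * M.T n x ^ p ≤
    M.c n / ((n : ℝ) ^ 2 * (M.G n).rho ^ n)

/-- MOMK (from MOMC): moments of `T`. PROOF. `Wg = ∑_good wt = c P(1)`, `∑_good wt A^r = c mr r P` (count
at `X = 1` and its moments: `mr` is additive), `E` = average over the good part with respect to `wt`,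
`δ = |T - A|`. By MOMC `c/(n^2 ρ^n) ≤ Wg D^K / √n`. NearP: `E δ^p ≤ (D^K n log n)^p + D^K/√n ≤ (D^K' n log n)^p`
eventually (`p ≥ 1`). For `r ≥ 1`: `|T^r - A^r| ≤ r δ (A + T)^(r-1) ≤ r δ (2 A + δ)^(r-1) ≤
r 4^r (δ A^(r-1) + δ^r)`; Cauchy-Schwarz: `E[δ A^(r-1)] ≤ √(E δ^2) √(E A^(2r-2)) ≤ D^K (n log n) (n √n log n)^(r-1)` by
MOMC (3). Divided by `(E A)^r ≥ (D^-K n √n)^r` this is at most `D^K (log n)^r / √n → 0` (`Slow`). So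
`E T^r / (E A)^r - E A^r / (E A)^r → 0`, in particular `E T / E A → 1`, hence `E T^r / (E T)^r → airyMoment r`
by MOMC (1). Bad part: `0 ≤ ∑_Ω wt T^p - ∑_good wt T^p ≤ Wg D^K / √n` (BadP), for `p = 0` the total weight, so
`M.W / Wg → 1` and `(∑_Ω wt T^p)/(Wg (E A)^p) - E T^p/(E A)^p → 0`. The case `r = 0`: `airyMoment 0 = 1`
(from MOMC (1): both are limits of `1`). -/
def MOMK_Stmt : Prop := ∀ D : ℕ → ℝ, Slow D → ∀ M : QModel D, NearP M → BadP M →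
  ∀ r : ℕ, Tendsto (fun n : ℕ => M.mom n r) atTop (𝓝 (airyMoment r))

end Pool.Agent.KCG
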