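import Pool.Agent.KCQ.Base
import Pool.Agent.EXW.StmtsA

/-!
# k-column-convex polygons (MP_f6626d_co), rates: statements of the analysis modules over `KCG.GapKernel`

Text of `EXW/StmtsA.lean`; the statements without a kernel (`Lim`, `QS0_Stmt`, `QETA_Stmt`,
`QX_Stmt`, `Slow`) are those of that file.

The modules GC, ..., GFIN of `Lib_helper89/FL` with constants which are powers of the class
parameter `D ≥ 2` (class `Cls D (1 - D⁻¹)`), and with rates instead of limits. Proofs: the text of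
the old proofs with explicit constants, `PAPER.md`.
-/

set_option autoImplicit false

open Finset Filter Topology

namespace Pool.Agent.KCG

open Pool.Agent.Gap Pool.Agent.FL Pool.Agent.EXW

/-- QGC : coercivity (old `FL.GC.coercive`). -/
def QGC_Stmt : Prop := ∃ K : ℕ, ∀ D : ℝ, 2 ≤ D → ∀ G : GapKernel, Cls D (1 - D⁻¹) G →
  ∀ (N : ℕ) (eps : ℝ) (z : ℂ) (f : ℤ → ℂ), 0 ≤ eps → ‖z‖ ≤ G.rho → Supp N f →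
    (D ^ K)⁻¹ * (‖(G.rho : ℂ) - z‖ * nsq N f + En N f + Pot eps N f)
      ≤ ‖form N f (G.Lop eps z N f)‖

/-- QGRE : resolvent (old `FL.gre`). -/
def QGRE_Stmt : Prop := ∃ K : ℕ, ∀ D : ℝ, 2 ≤ D → ∀ G : GapKernel, Cls D (1 - D⁻¹) G →
  ∀ (N : ℕ) (eps : ℝ) (z : ℂ), 0 ≤ eps → ‖z‖ ≤ G.rho →
    (∀ e : ℤ → ℂ, ∃ v : ℤ → ℂ, G.Solves eps z N v e) ∧
    (∀ v v' e : ℤ → ℂ, G.Solves eps z N v e → G.Solves eps z N v' e → v = v') ∧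
    (∀ v e : ℤ → ℂ, G.Solves eps z N v e →
      ‖(G.rho : ℂ) - z‖ * Real.sqrt (nsq N v) ≤ D ^ K * Real.sqrt (nsq N e) ∧
      En N v + Pot eps N v ≤ D ^ K * (Real.sqrt (nsq N v) * Real.sqrt (nsq N e)))

/-- QGSUP : arbitrary sources, weight `g` (old `FL.gsup`). -/
def QGSUP_Stmt : Prop := ∃ K : ℕ, ∀ D : ℝ, 2 ≤ D → ∀ G : GapKernel, Cls D (1 - D⁻¹) G →
  ∀ (N : ℕ) (eps : ℝ) (z : ℂ) (v e : ℤ → ℂ), 0 ≤ eps → ‖z‖ ≤ G.rho →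
    G.Solves eps z N v e →
    (∀ g, ‖v g‖ ≤ D ^ K * lw 1 N e) ∧ En N v + Pot eps N v ≤ D ^ K * (lw 1 N e) ^ 2

/-- QGW : arbitrary sources, weight `g ^ 4` (old `FL.gw`). -/
def QGW_Stmt : Prop := ∃ K : ℕ, ∀ D : ℝ, 2 ≤ D → ∀ G : GapKernel, Cls D (1 - D⁻¹) G →
  ∀ (N : ℕ) (eps : ℝ) (z : ℂ) (v e : ℤ → ℂ), 0 ≤ eps → ‖z‖ ≤ G.rho → z ≠ (G.rho : ℂ) →
    G.Solves eps z N v e →
    (∀ k : ℕ, k ≤ 2 → nsq N (mulg k v)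
        ≤ D ^ K * (lw 4 N e) ^ 2 / (Real.sqrt ‖(G.rho : ℂ) - z‖ * ‖(G.rho : ℂ) - z‖ ^ k)) ∧
    (∀ k : ℕ, 1 ≤ k → k ≤ 2 → En N (mulg k v) + Pot eps N (mulg k v)
        ≤ D ^ K * (lw 4 N e) ^ 2 * Real.sqrt ‖(G.rho : ℂ) - z‖ / ‖(G.rho : ℂ) - z‖ ^ k)

/-- QGV : the critical solution; here the constant is exponential in a power of the parameter
(old `FL.gv`). -/
def QGV_Stmt : Prop := ∃ K : ℕ, ∀ D : ℝ, 2 ≤ D → ∀ G : GapKernel, Cls D (1 - D⁻¹) G →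
  ∀ (R' : ℕ) (s : ℤ → ℝ), CritSrc D (1 - D⁻¹) R' s →
    ∃ v : ℤ → ℝ, CritSol (Real.exp (D ^ K)) G s v

/-- QGVL : the limit of the critical solution (old `FL.gvl`). -/
def QGVL_Stmt : Prop := ∃ K : ℕ, ∀ D : ℝ, 2 ≤ D → ∀ G : GapKernel, Cls D (1 - D⁻¹) G →
  ∀ (R' : ℕ) (s V : ℤ → ℝ), CritSrc D (1 - D⁻¹) R' s → CritSol D G s V → ∃ A : ℝ, Lim K D V A

/-- QCA : the same for the critical source of a cap (from QGVL and `FL.GE.critSrc_sr`). -/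
def QCA_Stmt : Prop := ∃ K : ℕ, ∀ D : ℝ, 2 ≤ D → ∀ G : GapKernel, Cls D (1 - D⁻¹) G →
  ∀ (C0 : ℕ) (s : ℕ → ℤ → ℝ) (V : ℤ → ℝ), ClsCap D (1 - D⁻¹) G C0 s →
    CritSol D G (GE.sr G.rho C0 s) V → ∃ A : ℝ, Lim K D V A

/-- QGEB : residual of the staircase solution, bulk part `rb` and wall part `rl`
(old `FL.geb`). -/
def QGEB_Stmt : Prop := ∃ K : ℕ, ∀ D : ℝ, 2 ≤ D → ∀ G : GapKernel, Cls D (1 - D⁻¹) G →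
  ∀ (N : ℕ) (eps eps' η : ℝ) (z z' : ℂ) (v : ℤ → ℂ), 0 ≤ eps → eps ≤ 1 → 0 ≤ eps' → eps' ≤ 1 →
    ‖z‖ ≤ G.rho → ‖z'‖ ≤ 1 / 4 → ‖(1 / 4 : ℂ) - z'‖ ≤ 1 / 8 → 0 ≤ η →
    stair.Solves eps' z' N v (src1 z') → (∀ g ∈ Icc (1 : ℤ) N, ‖v g - 1‖ ≤ η * g) →
    ∃ rb rl : ℤ → ℂ, (∀ g ∈ Icc (1 : ℤ) N, G.Lop eps z N v g = (G.kap g : ℂ) + rb g + rl g) ∧
      Real.sqrt (nsq N rb)
        ≤ ‖2 * (G.sig2 : ℂ) * (1 - 4 * z') - (G.mbar : ℂ) * (1 - z / (G.rho : ℂ))‖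
              * Real.sqrt (nsq N v)
          + 2 * |2 * G.sig2 * eps' - G.hbar * eps| * Real.sqrt (nsq N (mulg 1 v))
          + D ^ K * ((‖(G.rho : ℂ) - z‖ + ‖(1 / 4 : ℂ) - z'‖) * Real.sqrt (En N v)
              + (eps + eps') * (Real.sqrt (En N (mulg 1 v)) + Real.sqrt (nsq N v))
              + (‖(G.rho : ℂ) - z‖ + ‖(1 / 4 : ℂ) - z'‖) ^ 2 * Real.sqrt (nsq N v)
              + (eps + eps') ^ 2 * Real.sqrt (nsq N (mulg 2 v)) + ‖v N‖) ∧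
      lw 4 N rl ≤ D ^ K *
        (η + ‖(G.rho : ℂ) - z‖ + ‖(1 / 4 : ℂ) - z'‖ + eps + eps' + (N : ℝ)⁻¹)

/-- QGJ2 : bounds of the closed generating functions (old `FL.GJ2.gj2`). -/
def QGJ2_Stmt : Prop := ∃ K : ℕ, ∀ D : ℝ, 2 ≤ D → ∀ G : GapKernel, Cls D (1 - D⁻¹) G →
  ∀ (C0 : ℕ) (s t : ℕ → ℤ → ℝ), ClsCap D (1 - D⁻¹) G C0 s → ClsCap D (1 - D⁻¹) G C0 t →
    ∀ (N : ℕ) (eps : ℝ), 0 ≤ eps → C0 ≤ N →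
    ∀ b b', IsArr G s eps N b → IsArr G t eps N b' → ∀ z : ℂ, ‖z‖ < G.rho →
    (∀ j, Summable fun n : ℕ => ‖((n : ℂ)) ^ j * ((close C0 t b n : ℝ) : ℂ) * z ^ n‖) ∧
    ‖sgf 1 (close C0 t b) z - (G.mbar : ℂ) * ∑ g ∈ Icc (1 : ℤ) N, gf 0 b z g * gf 0 b' z g‖
      ≤ D ^ K ∧
    ‖sgf 2 (close C0 t b) z‖ * (‖(G.rho : ℂ) - z‖ * Real.sqrt ‖(G.rho : ℂ) - z‖) ≤ D ^ K

/-- QGM2 : second moments (old `FL.gm2`). -/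
def QGM2_Stmt : Prop := ∃ K : ℕ, ∀ D : ℝ, 2 ≤ D → ∀ G : GapKernel, Cls D (1 - D⁻¹) G →
  ∀ (C0 : ℕ) (s t : ℕ → ℤ → ℝ), ClsCap D (1 - D⁻¹) G C0 s → ClsCap D (1 - D⁻¹) G C0 t →
    ∀ B, IsSol G s B → ∀ n : ℕ,
    G.rho ^ n * ((closeP C0 t B n).derivative.derivative.eval 1
      + (closeP C0 t B n).derivative.eval 1) ≤ D ^ K * ((n : ℝ) * Real.sqrt n)

/-! ### The scales -/

/-- the scales of the model (`n`) and of the staircase polygons (`n0`) -/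
structure Sc0 (K : ℕ) (D W : ℝ) (G : GapKernel) (n n0 : ℕ) : Prop where
  D2 : 2 ≤ D
  W2 : 2 ≤ W
  cls : Cls D (1 - D⁻¹) G
  big : (D * W) ^ K ≤ n
  near : |(n0 : ℝ) * G.mbar - 2 * G.sig2 * n| ≤ G.mbar

/-- the area parameters `eps` of the model and `eps'` of the staircase polygons -/
structure Sc (K : ℕ) (D W : ℝ) (G : GapKernel) (n n0 : ℕ) (eps eps' : ℝ) : Prop
    extends Sc0 K D W G n n0 where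
  eps_nonneg : 0 ≤ eps'
  eps_le : eps' * ((n0 : ℝ) * Real.sqrt n0) ≤ W
  eps_eq : G.hbar * eps = 2 * G.sig2 * eps'

/-- QPAR : the scales. -/
def QPAR_Stmt : Prop := ∃ K0 K1 : ℕ, ∀ (D W : ℝ) (G : GapKernel) (n n0 : ℕ) (eps eps' : ℝ),
  Sc K0 D W G n n0 eps eps' →
    (1 ≤ n ∧ 1 ≤ n0 ∧ W ≤ n ∧ W ≤ n0 ∧ (n : ℝ) ≤ D ^ K1 * n0 ∧ (n0 : ℝ) ≤ D ^ K1 * n) ∧
    (0 ≤ eps ∧ eps ≤ 1 ∧ eps' ≤ 1 ∧ eps * ((n : ℝ) * Real.sqrt n) ≤ (D * W) ^ K1 ∧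
      eps' * ((n : ℝ) * Real.sqrt n) ≤ (D * W) ^ K1) ∧
    ∀ w : ℂ, w.re = 1 → ‖w‖ ≤ W →
      ‖zn G.rho w n‖ < G.rho ∧ ‖zn (1 / 4) w n0‖ < 1 / 4 ∧
      ‖(1 / 4 : ℂ) - zn (1 / 4) w n0‖ ≤ 1 / 8 ∧
      ‖(1 / 4 : ℂ) - zn (1 / 4) w n0‖ * n ≤ (D * W) ^ K1 ∧
      ‖(G.rho : ℂ) - zn G.rho w n‖ * n ≤ (D * W) ^ K1 ∧
      (D ^ K1)⁻¹ ≤ ‖(G.rho : ℂ) - zn G.rho w n‖ * n ∧
      ‖2 * (G.sig2 : ℂ) * (1 - 4 * zn (1 / 4) w n0)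
        - (G.mbar : ℂ) * (1 - zn G.rho w n / (G.rho : ℂ))‖ * (n : ℝ) ^ 2 ≤ (D * W) ^ K1

/-- QRB : the bound of the bulk residual (from QPAR, QS0). -/
def QRB_Stmt : Prop := ∃ K0 K1 : ℕ, ∀ (D W : ℝ) (G : GapKernel) (n n0 : ℕ) (eps eps' : ℝ),
  Sc K0 D W G n n0 eps eps' → ∀ (w : ℂ) (N : ℕ) (v : ℤ → ℂ), w.re = 1 → ‖w‖ ≤ W →
    4 * n ^ 2 + 4 * n0 ^ 2 ≤ N →
    stair.Solves eps' (zn (1 / 4) w n0) N v (src1 (zn (1 / 4) w n0)) →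
    ‖2 * (G.sig2 : ℂ) * (1 - 4 * zn (1 / 4) w n0)
        - (G.mbar : ℂ) * (1 - zn G.rho w n / (G.rho : ℂ))‖ * Real.sqrt (nsq N v)
      + 2 * |2 * G.sig2 * eps' - G.hbar * eps| * Real.sqrt (nsq N (mulg 1 v))
      + ((‖(G.rho : ℂ) - zn G.rho w n‖ + ‖(1 / 4 : ℂ) - zn (1 / 4) w n0‖)
            * Real.sqrt (En N v)
          + (eps + eps') * (Real.sqrt (En N (mulg 1 v)) + Real.sqrt (nsq N v))
          + (‖(G.rho : ℂ) - zn G.rho w n‖ + ‖(1 / 4 : ℂ) - zn (1 / 4) w n0‖) ^ 2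
            * Real.sqrt (nsq N v)
          + (eps + eps') ^ 2 * Real.sqrt (nsq N (mulg 2 v)) + ‖v N‖) ≤ (D * W) ^ K1 / n

/-- QE : comparison of the solutions (from QGRE, QGW, QGEB, QPAR, QS0, QETA, QRB;
old `FL.ge`). -/
def QE_Stmt : Prop := ∀ K : ℕ, ∃ K0 K1 : ℕ, ∀ (D W : ℝ) (G : GapKernel) (n n0 : ℕ)
  (eps eps' : ℝ), Sc K0 D W G n n0 eps eps' →
  ∀ (C0 : ℕ) (s : ℕ → ℤ → ℝ) (V : ℤ → ℝ) (A : ℝ), ClsCap D (1 - D⁻¹) G C0 s →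
    CritSol D G (GE.sr G.rho C0 s) V → Lim K D V A →
  ∀ (w : ℂ) (N : ℕ) (v v0 : ℤ → ℂ), w.re = 1 → ‖w‖ ≤ W → 4 * n ^ 2 + 4 * n0 ^ 2 ≤ N →
    G.Solves eps (zn G.rho w n) N v (capz C0 s 0 (zn G.rho w n)) →
    stair.Solves eps' (zn (1 / 4) w n0) N v0 (src1 (zn (1 / 4) w n0)) →
      nsq N (fun g => v g - (A : ℂ) * v0 g) ≤ (D * W) ^ K1

/-- QP : comparison of the closed generating functions at a point (from QE, QCA, QGJ2, QGW,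
QPAR, QS0 and the old J1, J2 for `stair`; old `FL.glt_of`). -/
def QP_Stmt : Prop := ∃ K0 K1 : ℕ, ∀ D : ℝ, 2 ≤ D → ∀ G : GapKernel, Cls D (1 - D⁻¹) G →
  ∀ (C0 : ℕ) (s t : ℕ → ℤ → ℝ) (Vs Vt : ℤ → ℝ), ClsCap D (1 - D⁻¹) G C0 s →
    ClsCap D (1 - D⁻¹) G C0 t → CritSol D G (GE.sr G.rho C0 s) Vs →
    CritSol D G (GE.sr G.rho C0 t) Vt →
  ∃ c : ℝ, (D ^ K1)⁻¹ ≤ c ∧ c ≤ D ^ K1 ∧ ∀ (W : ℝ) (n n0 : ℕ) (eps eps' : ℝ),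
    Sc K0 D W G n n0 eps eps' → ∀ N : ℕ, 4 * n ^ 2 + 4 * n0 ^ 2 ≤ N → C0 ≤ N →
    ∀ b b0, IsArr G s eps N b → Gap.IsArr stair cap1 eps' N b0 → ∀ w : ℂ, w.re = 1 → ‖w‖ ≤ W →
      ‖sgf 1 (close C0 t b) (zn G.rho w n)
        - (c : ℂ) * sgf 1 (close 1 cap1 b0) (zn (1 / 4) w n0)‖ ≤ (D * W) ^ K1 * Gap.qn n

/-- QLT : comparison of the Laplace transforms with a rate (from QP, QX, QGJ2, QPAR and the old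
J1, J2, B1 for `stair`; old `FL.glt_of`). -/
def QLT_Stmt : Prop := ∃ K0 K1 : ℕ, ∀ D : ℝ, 2 ≤ D → ∀ G : GapKernel, Cls D (1 - D⁻¹) G →
  ∀ (C0 : ℕ) (s t : ℕ → ℤ → ℝ) (Vs Vt : ℤ → ℝ) (B B0 : ℕ → ℤ → Polynomial ℝ),
    ClsCap D (1 - D⁻¹) G C0 s → ClsCap D (1 - D⁻¹) G C0 t →
    CritSol D G (GE.sr G.rho C0 s) Vs → CritSol D G (GE.sr G.rho C0 t) Vt →
    IsSol G s B → Gap.IsSol stair cap1 B0 →
  ∃ c : ℝ, (D ^ K1)⁻¹ ≤ c ∧ c ≤ D ^ K1 ∧ ∀ (W : ℝ) (n n0 : ℕ) (eps eps' : ℝ),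
    Sc K0 D W G n n0 eps eps' →
    |((n : ℝ) * Real.sqrt n) * G.rho ^ n * (closeP C0 t B n).eval (Real.exp (-eps))
      - c * Real.sqrt ((n0 : ℝ) / n) * (((n0 : ℝ) * Real.sqrt n0) * (1 / 4 : ℝ) ^ n0
        * (closeP 1 cap1 B0 n0).eval (Real.exp (-eps')))|
      ≤ (D * W) ^ K1 / Gap.qn n + D ^ K1 / Real.sqrt W

/-- QRAT : normalised Laplace transforms and means (from QLT, QGM2, QPAR and the old M2, BAL for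
`stair`). -/
def QRAT_Stmt : Prop := ∃ K0 K1 : ℕ, ∀ D : ℝ, 2 ≤ D → ∀ G : GapKernel, Cls D (1 - D⁻¹) G →
  ∀ (C0 : ℕ) (s t : ℕ → ℤ → ℝ) (Vs Vt : ℤ → ℝ) (B : ℕ → ℤ → Polynomial ℝ),
    ClsCap D (1 - D⁻¹) G C0 s → ClsCap D (1 - D⁻¹) G C0 t →
    CritSol D G (GE.sr G.rho C0 s) Vs → CritSol D G (GE.sr G.rho C0 t) Vt → IsSol G s B →
  ∀ (W : ℝ) (n n0 : ℕ), Sc0 K0 D W G n n0 → D ^ K0 ≤ W →
    (D ^ K1)⁻¹ ≤ ((n : ℝ) * Real.sqrt n) * G.rho ^ n * (closeP C0 t B n).eval 1 ∧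
    (∀ eps eps' : ℝ, 0 ≤ eps' → eps' * ((n0 : ℝ) * Real.sqrt n0) ≤ W →
      G.hbar * eps = 2 * G.sig2 * eps' →
      |(closeP C0 t B n).eval (Real.exp (-eps)) / (closeP C0 t B n).eval 1
        - (closeP 1 cap1 B0 n0).eval (Real.exp (-eps')) / (closeP 1 cap1 B0 n0).eval 1|
        ≤ (D * W) ^ K1 / Gap.qn n + D ^ K1 / Real.sqrt W) ∧
    ∀ lam : ℝ, 0 < lam → lam ≤ 1 →
      |2 * G.sig2 / (G.hbar * ((n0 : ℝ) * Real.sqrt n0)) *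
          ((closeP C0 t B n).derivative.eval 1 / (closeP C0 t B n).eval 1)
        - (closeP 1 cap1 B0 n0).derivative.eval 1 /
          (((n0 : ℝ) * Real.sqrt n0) * (closeP 1 cap1 B0 n0).eval 1)|
        ≤ ((D * W) ^ K1 / Gap.qn n + D ^ K1 / Real.sqrt W) / lam + D ^ K1 * lam

/-! ### Sequences of models -/

/-- A sequence of weighted models with slowly growing class parameters. -/
structure QModel (D : ℕ → ℝ) where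
  G : ℕ → GapKernel
  C0 : ℕ → ℕ
  s : ℕ → ℕ → ℤ → ℝ
  t : ℕ → ℕ → ℤ → ℝ
  Vs : ℕ → ℤ → ℝ
  Vt : ℕ → ℤ → ℝ
  cls : ∀ n, Cls (D n) (1 - (D n)⁻¹) (G n)
  cap_s : ∀ n, ClsCap (D n) (1 - (D n)⁻¹) (G n) (C0 n) (s n)
  cap_t : ∀ n, ClsCap (D n) (1 - (D n)⁻¹) (G n) (C0 n) (t n)
  crit_s : ∀ n, CritSol (D n) (G n) (GE.sr (G n).rho (C0 n) (s n)) (Vs n)
  crit_t : ∀ n, CritSol (D n) (G n) (GE.sr (G n).rho (C0 n) (t n)) (Vt n)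
  B : ℕ → ℕ → ℤ → Polynomial ℝ
  sol : ∀ n, IsSol (G n) (s n) (B n)
  Omega : ℕ → Type
  fin : ∀ n, Fintype (Omega n)
  good : ∀ n, Finset (Omega n)
  wt : ∀ n, Omega n → ℝ
  T : ∀ n, Omega n → ℝ
  A : ∀ n, Omega n → ℕ
  wt_nonneg : ∀ n x, 0 ≤ wt n x
  T_nonneg : ∀ n x, 0 ≤ T n x
  c : ℕ → ℝ
  c_pos : ∀ n, 0 < c n
  κ : ℕ → ℝ
  κ_lim : ∀ K : ℕ, Tendsto (fun n => κ n * D n ^ K) atTop (𝓝 0)
  n1 : ℕ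
  count : ∀ n, n1 ≤ n → (∑ x ∈ good n, Polynomial.C (wt n x) *
    (Polynomial.X : Polynomial ℝ) ^ (A n x)) = Polynomial.C (c n) * closeP (C0 n) (t n) (B n) n
  near : ∀ n, n1 ≤ n → ∑ x ∈ good n, wt n x * |T n x - A n x| ≤
    κ n * ((n : ℝ) * Real.sqrt n) *
      (∑ x ∈ good n, wt n x + c n / ((n : ℝ) * Real.sqrt n * (G n).rho ^ n))
  bad : ∀ n, n1 ≤ n → ∑ x : Omega n, wt n x * (1 + T n x) - ∑ x ∈ good n, wt n x * (1 + T n x) ≤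
    κ n * (c n / ((n : ℝ) * Real.sqrt n * (G n).rho ^ n))

attribute [instance] QModel.fin

/-- total weight -/
noncomputable def QModel.W {D : ℕ → ℝ} (M : QModel D) (n : ℕ) : ℝ := ∑ y : M.Omega n, M.wt n y

open Classical in
/-- distribution function of `T / E[T]` under the weights -/
noncomputable def QModel.cdf {D : ℕ → ℝ} (M : QModel D) (n : ℕ) (x : ℝ) : ℝ :=
  (∑ y ∈ univ.filter fun y : M.Omega n =>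
      M.T n y * M.W n ≤ x * ∑ y' : M.Omega n, M.wt n y' * M.T n y', M.wt n y) / M.W n

/-- the area polynomials of a sequence of models -/
noncomputable def QModel.P {D : ℕ → ℝ} (M : QModel D) (n : ℕ) : Polynomial ℝ :=
  closeP (M.C0 n) (M.t n) (M.B n) n

/-- QSIDE : limits of the normalised Laplace transforms (from QRAT and the old BAL). -/
def QSIDE_Stmt : Prop := ∀ (L : ℝ → ℝ) (m0 C' : ℝ), 0 < L 0 → 0 < m0 →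
  (∀ lam : ℝ, 0 ≤ lam → Tendsto (fun n : ℕ => ((n : ℝ) * Real.sqrt n) * (1 / 4 : ℝ) ^ n
    * (closeP 1 cap1 B0 n).eval (Real.exp (-(epsn lam n)))) atTop (𝓝 (L lam))) →
  (∀ lam : ℝ, 0 ≤ lam → |L lam / L 0 - 1 + lam * m0| ≤ C' * lam ^ 2) →
  ∀ D : ℕ → ℝ, Slow D → ∀ M : QModel D, ∃ K : ℕ,
    (∀ᶠ n : ℕ in atTop, (D n ^ K)⁻¹ ≤ ((n : ℝ) * Real.sqrt n) * (M.G n).rho ^ n *
      (M.P n).eval 1) ∧
    (∀ᶠ n : ℕ in atTop, (D n ^ K)⁻¹ ≤ mn M.P n) ∧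
    ∀ lam : ℝ, 0 ≤ lam →
      Tendsto (fun n : ℕ => lap M.P n (lam / mn M.P n)) atTop (𝓝 (L (lam / m0) / L 0))

open scoped NNReal ENNReal in
/-- QKEY : the laws of `T / E[T]` (old `FL.GFIN.seq_key`). -/
def QKEY_Stmt : Prop := ∀ D : ℕ → ℝ, Slow D → ∀ (M : QModel D) (K : ℕ),
  (∀ᶠ n : ℕ in atTop, (D n ^ K)⁻¹ ≤ ((n : ℝ) * Real.sqrt n) * (M.G n).rho ^ n *
    (M.P n).eval 1) →
  (∀ᶠ n : ℕ in atTop, (D n ^ K)⁻¹ ≤ mn M.P n) → ∀ Psi : ℕ → ℝ,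
  (∀ j : ℕ, Tendsto (fun n : ℕ => lap M.P n (j / mn M.P n)) atTop (𝓝 (Psi j))) →
  ∃ ν : ℕ → MeasureTheory.ProbabilityMeasure ℝ≥0,
    (∀ k, ∀ K : ℝ≥0, 0 < K →
      (ν k : MeasureTheory.Measure ℝ≥0) {x | K < x} ≤ 1 / (K : ℝ≥0∞)) ∧
    (∀ j : ℕ, Tendsto (fun k => ∫ x, Real.exp (-((j : ℝ) * (x : ℝ)))
      ∂(ν k : MeasureTheory.Measure ℝ≥0)) atTop (𝓝 (Psi j))) ∧
    ∀ᶠ k in atTop, ∀ x : ℝ,
      M.cdf k x = ((ν k : MeasureTheory.Measure ℝ≥0) {z | (z : ℝ) ≤ x}).toReal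

/-- QFIN : the universal law (from QSIDE, QKEY and the old LT, LT1, M2, BAL; old
`FL.GFIN.gfin`). -/
def QFIN_Stmt : Prop := ∃ μ : MeasureTheory.Measure ℝ, MeasureTheory.IsProbabilityMeasure μ ∧
  (∀ M : AreaModel, M.Conv μ) ∧ ∀ D : ℕ → ℝ, Slow D → ∀ M : QModel D,
    ∀ x : ℝ, μ {x} = 0 → Tendsto (fun n : ℕ => M.cdf n x) atTop (𝓝 (μ (Set.Iic x)).toReal)

end Pool.Agent.KCG
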