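import Mathlib
import Pool.Agent.KCQ.Stmts3
import Pool.Agent.KCG.GE
import Pool.Agent.KCG.GFIN

/-!
# Module MOMK: limits of the moments of `T`
-/

set_option autoImplicit false

namespace Pool.Agent.KCG

open Finset Filter Topology Pool.Agent.Gap Pool.Agent.EXW
open Pool.Agent.KCG (mr)
open Pool.Agent.KCS (airyMoment)

/-- a pointwise bound for the difference of powers -/
theorem momk_pt (p : ℕ) (hp : 1 ≤ p) (T A b σ : ℝ) (hT : 0 ≤ T) (hA : 0 ≤ A) (hb : 0 < b)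
    (hσ : 0 < σ) :
    |T ^ p - A ^ p| ≤ (p : ℝ) * 2 ^ p * (b ^ p * (σ * (|T - A| ^ 2 / b ^ 2) +
      A ^ (2 * (p - 1)) / b ^ (2 * (p - 1)) / σ) + |T - A| ^ p) := by
  obtain ⟨q, rfl⟩ : ∃ q, p = q + 1 := ⟨p - 1, by omega⟩
  have hδ : 0 ≤ |T - A| := abs_nonneg _
  have h1 := abs_pow_sub_pow_le T A (q + 1)
  rw [Nat.add_sub_cancel] at h1
  have hmax : max |T| |A| ≤ A + |T - A| := by
    rw [abs_of_nonneg hT, abs_of_nonneg hA]
    refine max_le ?_ (by linarith)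
    have := le_abs_self (T - A)
    linarith
  have h2 : max |T| |A| ^ q ≤ 2 ^ q * (A ^ q + |T - A| ^ q) := by
    refine (pow_le_pow_left₀ (le_max_of_le_left (abs_nonneg _)) hmax q).trans ?_
    refine (add_pow_le hA hδ q).trans ?_
    refine mul_le_mul_of_nonneg_right ?_ (by positivity)
    exact pow_le_pow_right₀ (by norm_num) (by omega)
  have h3 : |T - A| * A ^ q ≤ b ^ (q + 1) * (σ * (|T - A| ^ 2 / b ^ 2) + A ^ (2 * q) / b ^ (2 * q) / σ) := by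
    obtain ⟨x, hx⟩ : ∃ x, x = |T - A| / b := ⟨_, rfl⟩
    obtain ⟨y, hy⟩ : ∃ y, y = A ^ q / b ^ q := ⟨_, rfl⟩
    have hx0 : 0 ≤ x := by rw [hx]; positivity
    have hy0 : 0 ≤ y := by rw [hy]; positivity
    have e1 : |T - A| * A ^ q = b ^ (q + 1) * (x * y) := by
      rw [hx, hy]
      field_simp
      ring
    have e2 : |T - A| ^ 2 / b ^ 2 = x ^ 2 := by rw [hx, div_pow]
    have e3 : A ^ (2 * q) / b ^ (2 * q) = y ^ 2 := by
      rw [hy, div_pow, ← pow_mul, ← pow_mul, mul_comm q 2]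
    rw [e1, e2, e3]
    refine mul_le_mul_of_nonneg_left ?_ (by positivity)
    have h4 : 0 ≤ (σ * x - y) ^ 2 / σ := by positivity
    have h5 : (σ * x - y) ^ 2 / σ = σ * x ^ 2 + y ^ 2 / σ - 2 * (x * y) := by
      field_simp
      ring
    have h6 : 0 ≤ x * y := mul_nonneg hx0 hy0
    linarith
  rw [Nat.add_sub_cancel]
  calc |T ^ (q + 1) - A ^ (q + 1)| ≤ |T - A| * ((q + 1 : ℕ) : ℝ) * max |T| |A| ^ q := h1
    _ ≤ |T - A| * ((q + 1 : ℕ) : ℝ) * (2 ^ q * (A ^ q + |T - A| ^ q)) := by gcongr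
    _ = ((q + 1 : ℕ) : ℝ) * 2 ^ q * (|T - A| * A ^ q + |T - A| ^ (q + 1)) := by ring
    _ ≤ ((q + 1 : ℕ) : ℝ) * 2 ^ (q + 1) * (|T - A| * A ^ q + |T - A| ^ (q + 1)) := by
        refine mul_le_mul_of_nonneg_right ?_ (by positivity)
        refine mul_le_mul_of_nonneg_left ?_ (by positivity)
        exact pow_le_pow_right₀ (by norm_num) (by omega)
    _ ≤ _ := by
        refine mul_le_mul_of_nonneg_left ?_ (by positivity)
        linarith

/-- the difference of the moments of `T` and `A` over a finite set -/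
theorem momk_core {ι : Type} (s : Finset ι) (wt T A : ι → ℝ) (hw : ∀ x ∈ s, 0 ≤ wt x)
    (hT : ∀ x ∈ s, 0 ≤ T x) (hA : ∀ x ∈ s, 0 ≤ A x) (W : ℝ) (hW : 0 ≤ W) (p : ℕ) (b σ d : ℝ)
    (hd : 1 ≤ d) (hσ : 1 ≤ σ) (hb : σ ≤ b)
    (h2 : ∑ x ∈ s, wt x * |T x - A x| ^ 2 ≤ (d * b / σ) ^ 2 * W + d * W / σ)
    (hp : ∑ x ∈ s, wt x * |T x - A x| ^ p ≤ (d * b / σ) ^ p * W + d * W / σ)
    (hAp : ∑ x ∈ s, wt x * A x ^ (2 * (p - 1)) ≤ d * b ^ (2 * (p - 1)) * W) :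
    |∑ x ∈ s, wt x * T x ^ p - ∑ x ∈ s, wt x * A x ^ p| ≤
      5 * p * 2 ^ p * (d ^ (p + 2) / σ) * b ^ p * W := by
  rcases Nat.eq_zero_or_pos p with rfl | hp1
  · simp
  have hσ0 : 0 < σ := by linarith
  have hb0 : 0 < b := by linarith
  have hd0 : 0 < d := by linarith
  rw [← Finset.sum_sub_distrib]
  have h3 : |∑ x ∈ s, (wt x * T x ^ p - wt x * A x ^ p)| ≤ ∑ x ∈ s, wt x * ((p : ℝ) * 2 ^ p *
      (b ^ p * (σ * (|T x - A x| ^ 2 / b ^ 2) + A x ^ (2 * (p - 1)) / b ^ (2 * (p - 1)) / σ) +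
        |T x - A x| ^ p)) := by
    refine (Finset.abs_sum_le_sum_abs _ _).trans (Finset.sum_le_sum fun x hx => ?_)
    rw [← mul_sub, abs_mul, abs_of_nonneg (hw x hx)]
    exact mul_le_mul_of_nonneg_left (momk_pt p hp1 _ _ b σ (hT x hx) (hA x hx) hb0 hσ0) (hw x hx)
  have h4 : ∑ x ∈ s, wt x * ((p : ℝ) * 2 ^ p *
      (b ^ p * (σ * (|T x - A x| ^ 2 / b ^ 2) + A x ^ (2 * (p - 1)) / b ^ (2 * (p - 1)) / σ) +
        |T x - A x| ^ p)) = (p : ℝ) * 2 ^ p * (b ^ p * (σ * ((∑ x ∈ s, wt x * |T x - A x| ^ 2) / b ^ 2) +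
        (∑ x ∈ s, wt x * A x ^ (2 * (p - 1))) / b ^ (2 * (p - 1)) / σ) +
        ∑ x ∈ s, wt x * |T x - A x| ^ p) := by
    simp only [Finset.sum_div, Finset.mul_sum, ← Finset.sum_add_distrib]
    refine Finset.sum_congr rfl fun x _ => ?_
    ring
  rw [h4] at h3
  refine h3.trans ?_
  have hdp : d ≤ d ^ (p + 2) := by
    calc d = d ^ 1 := (pow_one d).symm
      _ ≤ _ := pow_le_pow_right₀ hd (by omega)
  have hd2 : d ^ 2 ≤ d ^ (p + 2) := pow_le_pow_right₀ hd (by omega)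
  have hdp' : d ^ p ≤ d ^ (p + 2) := pow_le_pow_right₀ hd (by omega)
  have hE : 0 < d ^ (p + 2) := by positivity
  have k1 : σ * ((∑ x ∈ s, wt x * |T x - A x| ^ 2) / b ^ 2) ≤ 2 * (d ^ (p + 2) / σ) * W := by
    have e1 : σ * (((d * b / σ) ^ 2 * W + d * W / σ) / b ^ 2) = (d ^ 2 / σ + d / b ^ 2) * W := by
      field_simp
    have e2 : σ * ((∑ x ∈ s, wt x * |T x - A x| ^ 2) / b ^ 2) ≤
        σ * (((d * b / σ) ^ 2 * W + d * W / σ) / b ^ 2) := by gcongr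
    refine e2.trans (e1.le.trans ?_)
    refine mul_le_mul_of_nonneg_right ?_ hW
    have e3 : d ^ 2 / σ ≤ d ^ (p + 2) / σ := by gcongr
    have e4 : d / b ^ 2 ≤ d ^ (p + 2) / σ := by
      have : σ ≤ b ^ 2 := by nlinarith
      gcongr
    linarith
  have k2 : (∑ x ∈ s, wt x * A x ^ (2 * (p - 1))) / b ^ (2 * (p - 1)) / σ ≤ d ^ (p + 2) / σ * W := by
    have e1 : (∑ x ∈ s, wt x * A x ^ (2 * (p - 1))) / b ^ (2 * (p - 1)) / σ ≤
        d * b ^ (2 * (p - 1)) * W / b ^ (2 * (p - 1)) / σ := by gcongr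
    refine e1.trans ?_
    have e2 : d * b ^ (2 * (p - 1)) * W / b ^ (2 * (p - 1)) / σ = d / σ * W := by field_simp
    rw [e2]
    gcongr
  have k3 : ∑ x ∈ s, wt x * |T x - A x| ^ p ≤ b ^ p * (2 * (d ^ (p + 2) / σ) * W) := by
    refine hp.trans ?_
    have e1 : (d * b / σ) ^ p * W = b ^ p * (d ^ p / σ ^ p * W) := by
      rw [div_pow, mul_pow]
      ring
    have e2 : d ^ p / σ ^ p ≤ d ^ (p + 2) / σ := by
      have : σ ≤ σ ^ p := le_self_pow₀ hσ (by omega)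
      gcongr
    have e3 : d * W / σ ≤ b ^ p * (d ^ (p + 2) / σ * W) := by
      have hbp : 1 ≤ b ^ p := one_le_pow₀ (hσ.trans hb)
      calc d * W / σ = 1 * (d / σ * W) := by ring
        _ ≤ b ^ p * (d ^ (p + 2) / σ * W) := by gcongr
    rw [e1]
    have e4 : b ^ p * (d ^ p / σ ^ p * W) ≤ b ^ p * (d ^ (p + 2) / σ * W) := by gcongr
    calc b ^ p * (d ^ p / σ ^ p * W) + d * W / σ ≤ b ^ p * (d ^ (p + 2) / σ * W) +
          b ^ p * (d ^ (p + 2) / σ * W) := add_le_add e4 e3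
      _ = _ := by ring
  calc (p : ℝ) * 2 ^ p * (b ^ p * (σ * ((∑ x ∈ s, wt x * |T x - A x| ^ 2) / b ^ 2) +
        (∑ x ∈ s, wt x * A x ^ (2 * (p - 1))) / b ^ (2 * (p - 1)) / σ) +
        ∑ x ∈ s, wt x * |T x - A x| ^ p)
      ≤ (p : ℝ) * 2 ^ p * (b ^ p * (2 * (d ^ (p + 2) / σ) * W + d ^ (p + 2) / σ * W) +
        b ^ p * (2 * (d ^ (p + 2) / σ) * W)) := by gcongr
    _ = _ := by ring

/-- powers of `log n` and a power of the slow sequence against `√n` -/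
theorem momk_slow (D : ℕ → ℝ) (h0 : ∀ n, 0 ≤ D n)
    (hD : ∀ K : ℕ, Tendsto (fun n : ℕ => D n ^ K / (n : ℝ)) atTop (𝓝 0)) (K p : ℕ) :
    Tendsto (fun n : ℕ => D n ^ K * Real.log n ^ p / Real.sqrt n) atTop (𝓝 0) := by
  have h1 := (hD (4 * K)).sqrt
  have h2 : Tendsto (fun n : ℕ => Real.log n ^ (4 * p) / (n : ℝ)) atTop (𝓝 0) :=
    (Real.isLittleO_pow_log_id_atTop (n := 4 * p)).tendsto_div_nhds_zero.comp tendsto_natCast_atTop_atTop
  have h3 := (h1.mul h2.sqrt).sqrt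
  rw [Real.sqrt_zero, mul_zero, Real.sqrt_zero] at h3
  refine h3.congr' ?_
  filter_upwards [eventually_ge_atTop 1] with n hn
  have hn0 : (0 : ℝ) < n := by exact_mod_cast hn
  have hs : 0 < Real.sqrt n := Real.sqrt_pos.2 hn0
  have hL : 0 ≤ Real.log n := Real.log_natCast_nonneg n
  have hss : Real.sqrt n ^ 2 = n := Real.sq_sqrt hn0.le
  have e1 : D n ^ (4 * K) / (n : ℝ) = (D n ^ (2 * K) / Real.sqrt n) ^ 2 := by
    rw [div_pow, hss, ← pow_mul]
    congr 2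
    ring
  have e2 : Real.log n ^ (4 * p) / (n : ℝ) = (Real.log n ^ (2 * p) / Real.sqrt n) ^ 2 := by
    rw [div_pow, hss, ← pow_mul]
    congr 2
    ring
  have hDn := h0 n
  rw [e1, e2, Real.sqrt_sq (by positivity), Real.sqrt_sq (by positivity)]
  have e3 : D n ^ (2 * K) / Real.sqrt n * (Real.log n ^ (2 * p) / Real.sqrt n) =
      (D n ^ K * Real.log n ^ p / Real.sqrt n) ^ 2 := by
    rw [div_pow, mul_pow, ← pow_mul, ← pow_mul, mul_comm K 2, mul_comm p 2]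
    field_simp
  rw [e3, Real.sqrt_sq (by positivity)]

/-! ### The moments as linear functionals -/

theorem momk_mr_eq (r : ℕ) (P : Polynomial ℝ) :
    mr r P = Polynomial.lsum (fun m => LinearMap.mulRight ℝ ((m : ℝ) ^ r)) P := rfl

theorem momk_mr_sum (r : ℕ) {ι : Type} (s : Finset ι) (f : ι → Polynomial ℝ) :
    mr r (∑ i ∈ s, f i) = ∑ i ∈ s, mr r (f i) := by
  simp only [momk_mr_eq, map_sum]

theorem momk_mr_C_mul (r : ℕ) (c : ℝ) (P : Polynomial ℝ) :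
    mr r (Polynomial.C c * P) = c * mr r P := by
  rw [← Polynomial.smul_eq_C_mul, momk_mr_eq, momk_mr_eq, map_smul, smul_eq_mul]

theorem momk_mr_CX (r a : ℕ) (c : ℝ) :
    mr r (Polynomial.C c * Polynomial.X ^ a) = c * (a : ℝ) ^ r := by
  rw [Polynomial.C_mul_X_pow_eq_monomial]
  unfold mr
  rw [Polynomial.sum_monomial_index]
  simp

theorem momk_mr_zero (P : Polynomial ℝ) : mr 0 P = P.eval 1 := by
  rw [Polynomial.eval_eq_sum]
  unfold mr
  simp only [pow_zero, one_pow]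

variable {D : ℕ → ℝ}

theorem momk_sum_A (M : QModel D) (n : ℕ) (hn : M.n1 ≤ n) (r : ℕ) :
    ∑ x ∈ M.good n, M.wt n x * (M.A n x : ℝ) ^ r = M.c n * mr r (M.P n) := by
  have h := congrArg (mr r) (M.count n hn)
  rw [momk_mr_sum, momk_mr_C_mul] at h
  refine Eq.trans (Finset.sum_congr rfl fun x _ => ?_) h
  rw [momk_mr_CX]

theorem momk_sum_good (M : QModel D) (n : ℕ) (hn : M.n1 ≤ n) :
    ∑ x ∈ M.good n, M.wt n x = M.c n * (M.P n).eval 1 := by
  have h := momk_sum_A M n hn 0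
  rw [momk_mr_zero] at h
  rw [← h]
  refine Finset.sum_congr rfl fun x _ => ?_
  rw [pow_zero, mul_one]

/-- the remainder term is small against the weight of the good part -/
theorem momk_rem (c P1 p n s d : ℝ) (hc : 0 < c) (hp : 0 < p) (hn : 0 < n) (hs : 0 < s)
    (hss : s ^ 2 = n) (hd : 0 < d) (h : d⁻¹ ≤ n * s * p * P1) :
    c / (n ^ 2 * p) ≤ d * (c * P1) / s := by
  rw [div_le_div_iff₀ (by positivity) hs]
  have h1 : 1 ≤ d * (n * s * p * P1) := by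
    calc (1 : ℝ) = d * d⁻¹ := (mul_inv_cancel₀ hd.ne').symm
      _ ≤ _ := by gcongr
  calc c * s = c * s * 1 := (mul_one _).symm
    _ ≤ c * s * (d * (n * s * p * P1)) := by gcongr
    _ = d * (c * P1) * (n * p) * s ^ 2 := by ring
    _ = _ := by rw [hss]; ring

/-- the scaled moments of `T` over the whole space -/
theorem momk_lim (hD : Slow D) (M : QModel D) (hN : NearP M) (hB : BadP M)
    (m1 : ∀ r : ℕ, Tendsto (fun n : ℕ => (mr r (M.P n) / (M.P n).eval 1) /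
      (mr 1 (M.P n) / (M.P n).eval 1) ^ r) atTop (𝓝 (airyMoment r)))
    {K2 : ℕ} (m2 : ∀ᶠ n : ℕ in atTop, (D n ^ K2)⁻¹ * ((n : ℝ) * Real.sqrt n) ≤
      mr 1 (M.P n) / (M.P n).eval 1)
    (m3 : ∀ r : ℕ, ∃ K : ℕ, ∀ᶠ n : ℕ in atTop, mr r (M.P n) / (M.P n).eval 1 ≤
      D n ^ K * ((n : ℝ) * Real.sqrt n * Real.log n) ^ r)
    {K4 : ℕ} (m4 : ∀ᶠ n : ℕ in atTop, (D n ^ K4)⁻¹ ≤ ((n : ℝ) * Real.sqrt n) * (M.G n).rho ^ n *
      (M.P n).eval 1) (p : ℕ) :
    Tendsto (fun n : ℕ => (∑ x : M.Omega n, M.wt n x * M.T n x ^ p) /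
      ((M.c n * (M.P n).eval 1) * (mr 1 (M.P n) / (M.P n).eval 1) ^ p)) atTop
      (𝓝 (airyMoment p)) := by
  classical
  obtain ⟨Ka, ha⟩ := hN 2
  obtain ⟨Kp, hp⟩ := hN p
  obtain ⟨K3, h3⟩ := m3 (2 * (p - 1))
  have hb := hB p
  obtain ⟨K, hK⟩ : ∃ K, K = Ka + Kp + K3 + K4 := ⟨_, rfl⟩
  obtain ⟨K', hK'⟩ : ∃ K', K' = K * (p + 2) + K2 * p + K4 := ⟨_, rfl⟩
  have hD1 : ∀ n, 1 ≤ D n := fun n => by have := hD.two_le n; linarith
  have hlim := (momk_slow D (fun n => by have := hD1 n; linarith) hD.lim K' p).const_mul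
    (1 + 5 * (p : ℝ) * 2 ^ p)
  rw [mul_zero] at hlim
  have key : Tendsto (fun n : ℕ => (∑ x : M.Omega n, M.wt n x * M.T n x ^ p) /
      ((M.c n * (M.P n).eval 1) * (mr 1 (M.P n) / (M.P n).eval 1) ^ p) -
      (mr p (M.P n) / (M.P n).eval 1) / (mr 1 (M.P n) / (M.P n).eval 1) ^ p) atTop (𝓝 0) := by
    refine squeeze_zero_norm' ?_ hlim
    filter_upwards [ha, hp, h3, hb, m2, m4, eventually_ge_atTop M.n1, eventually_ge_atTop 3]
      with n ha hp h3 hb m2 m4 hn1 hn3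
    have hn0 : (3 : ℝ) ≤ n := by exact_mod_cast hn3
    have hnp : (0 : ℝ) < n := by linarith
    have hL : 1 ≤ Real.log n := by
      rw [Real.le_log_iff_exp_le hnp]
      have := Real.exp_one_lt_d9
      linarith
    obtain ⟨L, hLd⟩ : ∃ L, L = Real.log n := ⟨_, rfl⟩
    obtain ⟨σ, hσd⟩ : ∃ σ, σ = Real.sqrt n := ⟨_, rfl⟩
    have hσ2 : σ ^ 2 = n := by rw [hσd]; exact Real.sq_sqrt hnp.le
    have hσ1 : 1 ≤ σ := by
      rw [hσd, ← Real.sqrt_one]
      exact Real.sqrt_le_sqrt (by linarith)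
    have hσ0 : 0 < σ := by linarith
    obtain ⟨ρ, hρ⟩ : ∃ ρ, ρ = (M.G n).rho ^ n := ⟨_, rfl⟩
    have hρ0 : 0 < ρ := by rw [hρ]; exact pow_pos (M.G n).rho_pos n
    obtain ⟨P1, hP1⟩ : ∃ P1, P1 = (M.P n).eval 1 := ⟨_, rfl⟩
    obtain ⟨μ, hμ⟩ : ∃ μ, μ = mr 1 (M.P n) / P1 := ⟨_, rfl⟩
    obtain ⟨c, hc⟩ : ∃ c, c = M.c n := ⟨_, rfl⟩
    have hc0 : 0 < c := by rw [hc]; exact M.c_pos n
    rw [← hLd] at hL
    have hDn := hD1 n
    have hD0 : 0 < D n := by linarith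
    have hA := fun r => momk_sum_A M n hn1 r
    have hg := momk_sum_good M n hn1
    rw [← hP1, ← hc] at hg
    rw [← hc, ← hP1, ← hμ]
    rw [← hLd, ← hρ, ← hc] at ha hp
    rw [← hρ, ← hc] at hb
    rw [← hσd, ← hρ, ← hP1] at m4
    rw [← hσd, ← hP1, ← hμ] at m2
    rw [← hσd, ← hP1, ← hLd] at h3
    have hP0 : 0 < P1 := by
      by_contra hcon
      have h1 : (n : ℝ) * σ * ρ * P1 ≤ 0 :=
        mul_nonpos_of_nonneg_of_nonpos (by positivity) (not_lt.1 hcon)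
      have h2 : 0 < (D n ^ K4)⁻¹ := by positivity
      linarith
    have hμ0 : 0 < μ := lt_of_lt_of_le (by positivity) m2
    obtain ⟨W, hW⟩ : ∃ W, W = c * P1 := ⟨_, rfl⟩
    have hW0 : 0 < W := by rw [hW]; positivity
    have hrem : c / ((n : ℝ) ^ 2 * ρ) ≤ D n ^ K4 * W / σ := by
      rw [hW]
      exact momk_rem c P1 ρ n σ (D n ^ K4) hc0 hρ0 hnp hσ0 hσ2 (by positivity) m4
    obtain ⟨b, hbd⟩ : ∃ b, b = (n : ℝ) * σ * L := ⟨_, rfl⟩
    have hb1 : σ ≤ b := by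
      rw [hbd]
      calc σ = 1 * σ * 1 := by ring
        _ ≤ n * σ * L := by gcongr; linarith
    have hb0 : 0 < b := by linarith
    obtain ⟨d, hdd⟩ : ∃ d, d = D n ^ K := ⟨_, rfl⟩
    have hd1 : 1 ≤ d := by rw [hdd]; exact one_le_pow₀ hDn
    have hmono : ∀ i j : ℕ, i ≤ j → D n ^ i ≤ D n ^ j := fun i j h => pow_le_pow_right₀ hDn h
    rw [hg] at ha hp
    rw [← hW] at ha hp ⊢
    have hnear : ∀ (q Kq : ℕ), Kq + K4 ≤ K →
        ∑ x ∈ M.good n, M.wt n x * |M.T n x - M.A n x| ^ q ≤ (D n ^ Kq * n * L) ^ q * W +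
          D n ^ Kq * (c / ((n : ℝ) ^ 2 * ρ)) →
        ∑ x ∈ M.good n, M.wt n x * |M.T n x - M.A n x| ^ q ≤ (d * b / σ) ^ q * W + d * W / σ := by
      intro q Kq hKq h
      refine h.trans (add_le_add ?_ ?_)
      · have e1 : d * b / σ = d * n * L := by
          rw [hbd]
          field_simp
        rw [e1]
        have e2 : D n ^ Kq ≤ d := by rw [hdd]; exact hmono _ _ (by omega)
        gcongr
      · calc D n ^ Kq * (c / ((n : ℝ) ^ 2 * ρ)) ≤ D n ^ Kq * (D n ^ K4 * W / σ) := by gcongr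
          _ = D n ^ (Kq + K4) * W / σ := by rw [pow_add]; ring
          _ ≤ d * W / σ := by
              rw [hdd]
              have := hmono _ _ hKq
              gcongr
    have hcore := momk_core (M.good n) (M.wt n) (M.T n) (fun x => (M.A n x : ℝ))
      (fun x _ => M.wt_nonneg n x) (fun x _ => M.T_nonneg n x) (fun x _ => Nat.cast_nonneg _)
      W hW0.le p b σ d hd1 hσ1 hb1 (hnear 2 Ka (by omega) ha) (hnear p Kp (by omega) hp) (by
        rw [hA, ← hc]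
        have e1 : c * mr (2 * (p - 1)) (M.P n) = W * (mr (2 * (p - 1)) (M.P n) / P1) := by
          rw [hW]
          field_simp
        rw [e1]
        have e2 : D n ^ K3 ≤ d := by rw [hdd]; exact hmono _ _ (by omega)
        calc W * (mr (2 * (p - 1)) (M.P n) / P1) ≤ W * (D n ^ K3 * b ^ (2 * (p - 1))) := by
              rw [hbd]
              exact mul_le_mul_of_nonneg_left h3 hW0.le
          _ ≤ W * (d * b ^ (2 * (p - 1))) := by gcongr
          _ = _ := by ring)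
    have hAp : ∑ x ∈ M.good n, M.wt n x * (M.A n x : ℝ) ^ p = W * (mr p (M.P n) / P1) := by
      rw [hA, ← hc, hW]
      field_simp
    rw [Real.norm_eq_abs]
    have e0 : (∑ x : M.Omega n, M.wt n x * M.T n x ^ p) / (W * μ ^ p) -
        mr p (M.P n) / P1 / μ ^ p =
        ((∑ x : M.Omega n, M.wt n x * M.T n x ^ p - ∑ x ∈ M.good n, M.wt n x * M.T n x ^ p) +
        (∑ x ∈ M.good n, M.wt n x * M.T n x ^ p - ∑ x ∈ M.good n, M.wt n x * (M.A n x : ℝ) ^ p)) /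
          (W * μ ^ p) := by
      rw [hAp]
      field_simp
      ring
    have hbad0 : 0 ≤ ∑ x : M.Omega n, M.wt n x * M.T n x ^ p -
        ∑ x ∈ M.good n, M.wt n x * M.T n x ^ p := by
      rw [sub_nonneg]
      exact Finset.sum_le_sum_of_subset_of_nonneg (Finset.subset_univ _) fun x _ _ =>
        mul_nonneg (M.wt_nonneg n x) (pow_nonneg (M.T_nonneg n x) p)
    have hnum : |(∑ x : M.Omega n, M.wt n x * M.T n x ^ p - ∑ x ∈ M.good n, M.wt n x * M.T n x ^ p) +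
        (∑ x ∈ M.good n, M.wt n x * M.T n x ^ p - ∑ x ∈ M.good n, M.wt n x * (M.A n x : ℝ) ^ p)| ≤
        D n ^ K4 * W / σ + 5 * p * 2 ^ p * (d ^ (p + 2) / σ) * b ^ p * W := by
      refine (abs_add_le _ _).trans (add_le_add ?_ hcore)
      rw [abs_of_nonneg hbad0]
      exact hb.trans hrem
    have hR : D n ^ K2 * μ ≥ n * σ := by
      calc (n : ℝ) * σ = D n ^ K2 * ((D n ^ K2)⁻¹ * (n * σ)) := by
            rw [← mul_assoc, mul_inv_cancel₀ (by positivity), one_mul]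
        _ ≤ D n ^ K2 * μ := by gcongr
    have hμ1 : 1 ≤ D n ^ K2 * μ := by
      refine le_trans ?_ hR
      calc (1 : ℝ) = 1 * 1 := by ring
        _ ≤ n * σ := by gcongr; linarith
    have hbμ : b ^ p ≤ (D n ^ (K2 * p) * L ^ p) * μ ^ p := by
      calc b ^ p = (n * σ * L) ^ p := by rw [hbd]
        _ ≤ (D n ^ K2 * μ * L) ^ p := by gcongr
        _ = _ := by rw [mul_pow, mul_pow, ← pow_mul]; ring
    have h1μ : 1 ≤ D n ^ (K2 * p) * μ ^ p := by
      rw [pow_mul, ← mul_pow]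
      exact one_le_pow₀ hμ1
    rw [e0, abs_div, abs_of_pos (by positivity : 0 < W * μ ^ p), div_le_iff₀ (by positivity)]
    refine hnum.trans ?_
    have hLp : 1 ≤ L ^ p := one_le_pow₀ hL
    have f1 : D n ^ K4 * W / σ ≤ D n ^ K' * L ^ p / σ * (W * μ ^ p) := by
      calc D n ^ K4 * W / σ = D n ^ K4 * 1 * 1 / σ * (W * 1) := by ring
        _ ≤ D n ^ K4 * D n ^ (K * (p + 2)) * L ^ p / σ * (W * (D n ^ (K2 * p) * μ ^ p)) := by
            have : 1 ≤ D n ^ (K * (p + 2)) := one_le_pow₀ hDn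
            gcongr
        _ = _ := by
            rw [hK', pow_add, pow_add]
            ring
    have f2 : 5 * p * 2 ^ p * (d ^ (p + 2) / σ) * b ^ p * W ≤
        5 * p * 2 ^ p * (D n ^ K' * L ^ p / σ * (W * μ ^ p)) := by
      calc 5 * p * 2 ^ p * (d ^ (p + 2) / σ) * b ^ p * W
          ≤ 5 * p * 2 ^ p * (d ^ (p + 2) / σ) * (D n ^ (K2 * p) * L ^ p * μ ^ p) * W := by gcongr
        _ = 5 * p * 2 ^ p * (D n ^ (K * (p + 2) + K2 * p) * L ^ p / σ * (W * μ ^ p)) := by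
            rw [hdd, ← pow_mul, pow_add]
            ring
        _ ≤ _ := by
            have := hmono (K * (p + 2) + K2 * p) K' (by omega)
            gcongr
    rw [← hLd, ← hσd]
    calc D n ^ K4 * W / σ + 5 * p * 2 ^ p * (d ^ (p + 2) / σ) * b ^ p * W
        ≤ D n ^ K' * L ^ p / σ * (W * μ ^ p) +
          5 * p * 2 ^ p * (D n ^ K' * L ^ p / σ * (W * μ ^ p)) := add_le_add f1 f2
      _ = _ := by ring
  have hsum := key.add (m1 p)
  rw [zero_add] at hsum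
  refine hsum.congr fun n => ?_
  ring

/-- **MOMK**: the moments of `T / E[T]` converge. -/
theorem t_MOMK (h : MOMC_Stmt) : MOMK_Stmt := by
  intro D hD M hN hB r
  obtain ⟨m1, ⟨K2, m2⟩, m3, ⟨K4, m4⟩⟩ := h D hD M
  have hD1 : ∀ n, 1 ≤ D n := fun n => by have := hD.two_le n; linarith
  have hlim := momk_lim hD M hN hB m1 m2 m3 m4
  have hpos : ∀ᶠ n : ℕ in atTop, 0 < (M.P n).eval 1 ∧ 0 < mr 1 (M.P n) / (M.P n).eval 1 := by
    filter_upwards [m2, m4, eventually_ge_atTop 1] with n m2 m4 hn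
    have hnp : (0 : ℝ) < n := by exact_mod_cast hn
    have hσ : 0 < Real.sqrt n := Real.sqrt_pos.2 hnp
    have hD0 : 0 < D n := by have := hD1 n; linarith
    have hρ : 0 < (M.G n).rho ^ n := pow_pos (M.G n).rho_pos n
    refine ⟨?_, lt_of_lt_of_le (by positivity) m2⟩
    by_contra hcon
    have h1 : (n : ℝ) * Real.sqrt n * (M.G n).rho ^ n * (M.P n).eval 1 ≤ 0 :=
      mul_nonpos_of_nonneg_of_nonpos (by positivity) (not_lt.1 hcon)
    have h2 : 0 < (D n ^ K4)⁻¹ := by positivity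
    linarith
  have a0 : airyMoment 0 = 1 := by
    refine tendsto_nhds_unique (m1 0) (tendsto_const_nhds.congr' ?_)
    filter_upwards [hpos] with n hn
    rw [pow_zero, div_one, momk_mr_zero, div_self hn.1.ne']
  have a1 : airyMoment 1 = 1 := by
    refine tendsto_nhds_unique (m1 1) (tendsto_const_nhds.congr' ?_)
    filter_upwards [hpos] with n hn
    rw [pow_one, div_self hn.2.ne']
  have l0 := hlim 0
  have l1 := hlim 1
  have lr := hlim r
  rw [a0] at l0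
  rw [a1] at l1
  have hfin := (lr.div l0 one_ne_zero).div ((l1.div l0 one_ne_zero).pow r)
    (by rw [div_one, one_pow]; exact one_ne_zero)
  rw [div_one, div_one, one_pow, div_one] at hfin
  refine hfin.congr' ?_
  filter_upwards [hpos, l0.eventually_ne one_ne_zero] with n hn hn0
  have hW : (M.c n * (M.P n).eval 1) ≠ 0 := (mul_pos (M.c_pos n) hn.1).ne'
  have hμ : mr 1 (M.P n) / (M.P n).eval 1 ≠ 0 := hn.2.ne'
  simp only [Pi.div_apply] at hn0 ⊢
  unfold QModel.mom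
  have e0 : ∑ x : M.Omega n, M.wt n x * M.T n x ^ 0 = M.W n := by
    unfold QModel.W
    refine Finset.sum_congr rfl fun x _ => ?_
    rw [pow_zero, mul_one]
  have e1 : ∑ x : M.Omega n, M.wt n x * M.T n x ^ 1 = ∑ x : M.Omega n, M.wt n x * M.T n x := by
    simp only [pow_one]
  rw [e0, pow_zero, mul_one] at hn0
  have hWn : M.W n ≠ 0 := fun h => hn0 (by rw [h, zero_div])
  rw [e0, e1, pow_zero, mul_one, pow_one]
  obtain ⟨w, hw⟩ : ∃ w, w = M.c n * (M.P n).eval 1 := ⟨_, rfl⟩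
  obtain ⟨μ, hμd⟩ : ∃ μ, μ = mr 1 (M.P n) / (M.P n).eval 1 := ⟨_, rfl⟩
  obtain ⟨S, hS⟩ : ∃ S, S = ∑ x : M.Omega n, M.wt n x * M.T n x ^ r := ⟨_, rfl⟩
  obtain ⟨S1, hS1⟩ : ∃ S1, S1 = ∑ x : M.Omega n, M.wt n x * M.T n x := ⟨_, rfl⟩
  rw [← hw, ← hμd, ← hS, ← hS1]
  rw [← hw] at hW
  rw [← hμd] at hμ
  rw [show S1 / (w * μ) / (M.W n / w) = S1 / M.W n / μ by field_simp,
    show S / (w * μ ^ r) / (M.W n / w) = S / M.W n / μ ^ r by field_simp, div_pow, div_div_div_cancel_right₀ (pow_ne_zero r hμ)]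

end Pool.Agent.KCG
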