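import Pool.Agent.KCQ.StmtsA
import Pool.Agent.KCG.GE
import Pool.Agent.KCG.GFIN

/-!
# k-column-convex polygons, rates (text of `EXW/QCA.lean`), module QCA: the limit of the critical solution for the source of a cap
-/

set_option autoImplicit false

open Finset Filter Topology

namespace Pool.Agent.KCG

open Pool.Agent.Gap Pool.Agent.FL Pool.Agent.EXW

theorem t_QCA (h : QGVL_Stmt) : QCA_Stmt := by
  obtain ⟨K, hK⟩ := h
  refine ⟨4 * K, fun D hD G hG C0 s V hs hV => ?_⟩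
  have hD0 : 0 < D := by linarith
  have hsrc := GE.critSrc_sr hD0 (th_pos hD) (th_lt hD) hG hs
  have e : D ^ 3 + D ^ 2 + D / (1 - (1 - D⁻¹)) = D ^ 3 + 2 * D ^ 2 := by
    rw [sub_sub_cancel, div_inv_eq_mul]
    ring
  rw [e] at hsrc
  have h2' : 2 * D ^ 2 ≤ D ^ 3 := by nlinarith [sq_nonneg D]
  have h2'' : 2 * D ^ 3 ≤ D ^ 4 := by
    have : 0 ≤ D ^ 3 := by positivity
    nlinarith
  have h2 : D ^ 3 + 2 * D ^ 2 ≤ D ^ 4 := by linarith
  have h3 : D ≤ D ^ 4 := by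
    have : D ≤ D ^ 3 := by nlinarith [sq_nonneg D]
    nlinarith
  have h4 : 2 ≤ D ^ 4 := hD.trans h3
  have hsrc' : CritSrc (D ^ 4) (1 - (D ^ 4)⁻¹) C0 (GE.sr G.rho C0 s) :=
    { nonneg := hsrc.nonneg
      supp := hsrc.supp
      one := (inv_anti₀ (by positivity) h2).trans hsrc.one
      dec := fun g => (hsrc.dec g).trans <|
        mul_le_mul h2 (pow_le_pow_left₀ (th_pos hD).le (th_mono hD h3) g)
          (pow_nonneg (th_pos hD).le g) (by positivity) }
  obtain ⟨A, hA⟩ := hK (D ^ 4) h4 G (cls_mono hD h3 hG) C0 _ V hsrc' (critSol_mono hD h3 hV)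
  have e3 : (D ^ 4) ^ K = D ^ (4 * K) := (pow_mul D 4 K).symm
  refine ⟨A, ?_, ?_, fun N => ?_⟩
  · rw [← e3]; exact hA.low
  · rw [← e3]; exact hA.up
  · rw [← e3]; exact hA.sum N

end Pool.Agent.KCG
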