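import Pool.Agent.KCQ.StmtsA
import Pool.Agent.KCG.GE
import Pool.Agent.KCG.GFIN

/-!
# k-column-convex polygons, rates (text of `EXW/QFIN.lean`), module QFIN: the universal law for slowly varying sequences of models
-/

set_option autoImplicit false

open Finset Filter Topology MeasureTheory
open scoped NNReal ENNReal

namespace Pool.Agent.KCG

open Pool.Agent.Gap Pool.Agent.FL Pool.Agent.EXW

/-- the universal law -/
theorem t_QFIN (hSIDE : QSIDE_Stmt) (hKEY : QKEY_Stmt) (oLT : Gap.LT_Stmt)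
    (oLT1 : Gap.LT1_Stmt) (oM2 : Gap.M2_Stmt) (oBAL : Gap.BAL_Stmt) : QFIN_Stmt := by
  obtain ⟨L, m0, C', hL0, hm0, hC', hL, hexp⟩ := stair_side oLT1 oM2 oBAL
  -- laws of a slowly varying sequence of models
  have key : ∀ D : ℕ → ℝ, Slow D → ∀ M : QModel D, ∃ ν : ℕ → ProbabilityMeasure ℝ≥0,
      (∀ k, ∀ K : ℝ≥0, 0 < K → (ν k : Measure ℝ≥0) {x | K < x} ≤ 1 / (K : ℝ≥0∞)) ∧
      (∀ j : ℕ, Tendsto (fun k => ∫ x, Real.exp (-((j : ℝ) * (x : ℝ))) ∂(ν k : Measure ℝ≥0))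
        atTop (𝓝 (L (j / m0) / L 0))) ∧
      ∀ᶠ k in atTop, ∀ x : ℝ,
        M.cdf k x = ((ν k : Measure ℝ≥0) {z | (z : ℝ) ≤ x}).toReal := by
    intro D hD M
    obtain ⟨K, h1, h2, h3⟩ := hSIDE L m0 C' hL0 hm0 hL hexp D hD M
    exact hKEY D hD M K h1 h2 (fun j => L (j / m0) / L 0) (fun j => h3 j (Nat.cast_nonneg j))
  by_cases h : ∃ ν : ℕ → ProbabilityMeasure ℝ≥0,
      (∀ k, ∀ K : ℝ≥0, 0 < K → (ν k : Measure ℝ≥0) {x | K < x} ≤ 1 / (K : ℝ≥0∞)) ∧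
      (∀ j : ℕ, Tendsto (fun k => ∫ x, Real.exp (-((j : ℝ) * (x : ℝ))) ∂(ν k : Measure ℝ≥0))
        atTop (𝓝 (L (j / m0) / L 0)))
  · obtain ⟨ν1, ht1, hl1⟩ := h
    obtain ⟨μ, hμ⟩ := exists_limit ht1 hl1
    have hlaw : ∀ ν : ℕ → ProbabilityMeasure ℝ≥0,
        (∀ k, ∀ K : ℝ≥0, 0 < K → (ν k : Measure ℝ≥0) {x | K < x} ≤ 1 / (K : ℝ≥0∞)) →
        (∀ j : ℕ, Tendsto (fun k => ∫ x, Real.exp (-((j : ℝ) * (x : ℝ)))
          ∂(ν k : Measure ℝ≥0)) atTop (𝓝 (L (j / m0) / L 0))) → Tendsto ν atTop (𝓝 μ) := by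
      intro ν h1 h2
      refine tendsto_of_laplace h1 fun j => ?_
      rw [hμ j]
      exact h2 j
    refine ⟨(μ : Measure ℝ≥0).map (fun z : ℝ≥0 => (z : ℝ)),
      Measure.isProbabilityMeasure_map measurable_coe_nnreal_real.aemeasurable,
      fun M x hx => ?_, fun D hD M x hx => ?_⟩
    · obtain ⟨ν, ht, hl, hc⟩ := M.key oLT oM2 hL0 hm0 hL hexp
      refine GFIN.conv_of_laws (hlaw ν ht hl) hx ?_
      filter_upwards [hc] with n hn using hn x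
    · obtain ⟨ν, ht, hl, hc⟩ := key D hD M
      refine GFIN.conv_of_laws (hlaw ν ht hl) hx ?_
      filter_upwards [hc] with n hn using hn x
  · refine ⟨Measure.dirac 0, inferInstance, fun M => ?_, fun D hD M => ?_⟩
    · obtain ⟨ν, ht, hl, hc⟩ := M.key oLT oM2 hL0 hm0 hL hexp
      exact (h ⟨ν, ht, hl⟩).elim
    · obtain ⟨ν, ht, hl, hc⟩ := key D hD M
      exact (h ⟨ν, ht, hl⟩).elim

end Pool.Agent.KCG
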