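import Pool.Agent.KCQ.StmtsA
import Pool.Agent.KCG.GM2
import Pool.Agent.KCG.GE
import Pool.Agent.KCG.GFIN

/-!
# QGM2: second moments, the constant is a power of the class parameter
-/

set_option autoImplicit false

open Finset Filter Topology

namespace Pool.Agent.KCG

open Pool.Agent.Gap Pool.Agent.FL Pool.Agent.KCG.GM2 Pool.Agent.EXW

namespace QGM2

/-- coefficient bound, homogeneous in the bound of the function -/
lemma coef_hom : ∃ Ca : ℝ, 0 ≤ Ca ∧ ∀ A C : ℝ, 0 < A → 0 < C →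
    ∀ (rho : ℝ) (a : ℕ → ℝ), 0 < rho → C⁻¹ ≤ rho →
    (∀ z : ℂ, ‖z‖ < rho → Summable fun m : ℕ => ‖((a m : ℝ) : ℂ) * z ^ m‖) →
    (∀ z : ℂ, ‖z‖ < rho → ‖∑' m : ℕ, ((a m : ℝ) : ℂ) * z ^ m‖ *
      (Real.sqrt ‖(rho : ℂ) - z‖ * ‖(rho : ℂ) - z‖) ≤ A) →
    ∀ n : ℕ, 1 ≤ n → |a n| * rho ^ n ≤ Ca * (A * (Real.sqrt C * C)) * Real.sqrt n := by
  obtain ⟨C', hC'0, hC'⟩ := coef_bound 1 1 one_pos zero_le_one
  refine ⟨C', hC'0, fun A C hA hC rho a hrho hr hs hF n hn => ?_⟩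
  set M : ℝ := A * (Real.sqrt C * C) with hM
  have hM0 : 0 < M := by positivity
  have hterm : ∀ (z : ℂ) (m : ℕ), (((a m * rho ^ m / M : ℝ)) : ℂ) * z ^ m =
      ((M⁻¹ : ℝ) : ℂ) * (((a m : ℝ) : ℂ) * ((rho : ℂ) * z) ^ m) := by
    intro z m
    rw [div_eq_mul_inv]
    push_cast
    rw [mul_pow]
    ring
  have hnorm : ∀ z : ℂ, ‖z‖ < 1 → ‖(rho : ℂ) * z‖ < rho := by
    intro z hz
    rw [norm_mul, Complex.norm_real, Real.norm_of_nonneg hrho.le]
    calc rho * ‖z‖ < rho * 1 := mul_lt_mul_of_pos_left hz hrho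
      _ = rho := mul_one _
  have h1 := hC' (fun m => a m * rho ^ m / M) ?_ ?_ n hn
  · have h2 : |a n * rho ^ n / M| = |a n| * rho ^ n / M := by
      rw [abs_div, abs_mul, abs_of_nonneg (by positivity : (0 : ℝ) ≤ rho ^ n), abs_of_pos hM0]
    rw [one_pow, mul_one] at h1
    change |a n * rho ^ n / M| ≤ _ at h1
    rw [h2, div_le_iff₀ hM0] at h1
    calc |a n| * rho ^ n ≤ C' * Real.sqrt n * M := h1
      _ = _ := by ring
  · intro z hz
    have h2 := (hs _ (hnorm z hz)).mul_left ‖((M⁻¹ : ℝ) : ℂ)‖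
    refine h2.congr fun m => ?_
    rw [hterm, norm_mul ((M⁻¹ : ℝ) : ℂ)]
  · intro z hz
    have h2 := hF _ (hnorm z hz)
    have h3 : ∑' m : ℕ, (((a m * rho ^ m / M : ℝ)) : ℂ) * z ^ m =
        ((M⁻¹ : ℝ) : ℂ) * ∑' m : ℕ, ((a m : ℝ) : ℂ) * ((rho : ℂ) * z) ^ m := by
      rw [← tsum_mul_left]
      exact tsum_congr fun m => hterm z m
    rw [h3, norm_mul, Complex.norm_real, Real.norm_of_nonneg (inv_pos.2 hM0).le]
    set F := ‖∑' m : ℕ, ((a m : ℝ) : ℂ) * ((rho : ℂ) * z) ^ m‖ with hFdef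
    have hF0 : 0 ≤ F := norm_nonneg _
    have h4 : ‖(rho : ℂ) - (rho : ℂ) * z‖ = rho * ‖((1 : ℝ) : ℂ) - z‖ := by
      have : (rho : ℂ) - (rho : ℂ) * z = (rho : ℂ) * (((1 : ℝ) : ℂ) - z) := by
        push_cast
        ring
      rw [this, norm_mul, Complex.norm_real, Real.norm_of_nonneg hrho.le]
    rw [h4, Real.sqrt_mul hrho.le] at h2
    set d := ‖((1 : ℝ) : ℂ) - z‖ with hd
    have hd0 : 0 ≤ d := norm_nonneg _
    have hCr : 1 ≤ C * rho := by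
      have := mul_le_mul_of_nonneg_left hr hC.le
      rwa [mul_inv_cancel₀ hC.ne'] at this
    have h5 : 1 ≤ Real.sqrt C * Real.sqrt rho := by
      rw [← Real.sqrt_mul hC.le]
      exact Real.one_le_sqrt.2 hCr
    have h6 : 0 ≤ F * (Real.sqrt d * d) := by positivity
    have h7 : 1 ≤ (Real.sqrt C * Real.sqrt rho) * (C * rho) := by
      calc (1 : ℝ) = 1 * 1 := (one_mul 1).symm
        _ ≤ _ := mul_le_mul h5 hCr zero_le_one (by positivity)
    have h8 : F * (Real.sqrt d * d) ≤ M := by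
      calc F * (Real.sqrt d * d) = F * (Real.sqrt d * d) * 1 := (mul_one _).symm
        _ ≤ F * (Real.sqrt d * d) * ((Real.sqrt C * Real.sqrt rho) * (C * rho)) :=
            mul_le_mul_of_nonneg_left h7 h6
        _ = (F * (Real.sqrt rho * Real.sqrt d * (rho * d))) * (Real.sqrt C * C) := by ring
        _ ≤ A * (Real.sqrt C * C) := mul_le_mul_of_nonneg_right h2 (by positivity)
    calc M⁻¹ * F * (Real.sqrt d * d) = (F * (Real.sqrt d * d)) / M := by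
          rw [div_eq_mul_inv]
          ring
      _ ≤ 1 := by
          rw [div_le_iff₀ hM0, one_mul]
          exact h8

lemma mom_PB : PB fun D => mom D (1 - D⁻¹) := by
  have h1 : PB fun D => D * ∑' m : ℕ, (m : ℝ) ^ 4 * (1 - D⁻¹) ^ m :=
    PB.id.mul (PB.geo' 4 (fun D hD => (th_pos hD).le) LB.inv_self (fun D hD => le_rfl))
  refine h1.congr fun D hD => ?_
  unfold mom
  rw [← tsum_mul_left]
  exact tsum_congr fun m => by ring

/-- the constant -/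
noncomputable def cst (Ca : ℝ) (K1 : ℕ) (D : ℝ) : ℝ :=
  Ca * ((16 * mom D (1 - D⁻¹) * (D ^ K1 * mom D (1 - D⁻¹) ^ 2) + 1) * (Real.sqrt D * D)) + 1

lemma cst_PB (Ca : ℝ) (K1 : ℕ) : PB (cst Ca K1) := by
  unfold cst
  exact ((PB.const Ca).mul (((((PB.const 16).mul mom_PB).mul
    ((PB.pow_self K1).mul (mom_PB.pow 2))).add (PB.const 1)).mul
      (PB.id.sqrt.mul PB.id))).add (PB.const 1)

theorem core (Ca : ℝ) (hCa0 : 0 ≤ Ca) (hCa : ∀ A C : ℝ, 0 < A → 0 < C →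
    ∀ (rho : ℝ) (a : ℕ → ℝ), 0 < rho → C⁻¹ ≤ rho →
    (∀ z : ℂ, ‖z‖ < rho → Summable fun m : ℕ => ‖((a m : ℝ) : ℂ) * z ^ m‖) →
    (∀ z : ℂ, ‖z‖ < rho → ‖∑' m : ℕ, ((a m : ℝ) : ℂ) * z ^ m‖ *
      (Real.sqrt ‖(rho : ℂ) - z‖ * ‖(rho : ℂ) - z‖) ≤ A) →
    ∀ n : ℕ, 1 ≤ n → |a n| * rho ^ n ≤ Ca * (A * (Real.sqrt C * C)) * Real.sqrt n)
    (K1 : ℕ) (D : ℝ) (hD : 2 ≤ D)
    (hW1 : ∀ G : GapKernel, Cls D (1 - D⁻¹) G →
      ∀ (N : ℕ) (eps : ℝ) (z : ℂ) (v e : ℤ → ℂ), 0 ≤ eps → ‖z‖ ≤ G.rho → z ≠ (G.rho : ℂ) →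
      G.Solves eps z N v e →
      (∀ k : ℕ, k ≤ 2 → nsq N (mulg k v)
          ≤ D ^ K1 * (lw 4 N e) ^ 2 / (Real.sqrt ‖(G.rho : ℂ) - z‖ * ‖(G.rho : ℂ) - z‖ ^ k)) ∧
      (∀ k : ℕ, 1 ≤ k → k ≤ 2 → En N (mulg k v) + Pot eps N (mulg k v)
          ≤ D ^ K1 * (lw 4 N e) ^ 2 * Real.sqrt ‖(G.rho : ℂ) - z‖ / ‖(G.rho : ℂ) - z‖ ^ k))
    (G : GapKernel) (hG : Cls D (1 - D⁻¹) G) (C0 : ℕ) (s t : ℕ → ℤ → ℝ)
    (hs : ClsCap D (1 - D⁻¹) G C0 s) (ht : ClsCap D (1 - D⁻¹) G C0 t)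
    (B : ℕ → ℤ → Polynomial ℝ) (hB : IsSol G s B) (n : ℕ) :
    G.rho ^ n * ((closeP C0 t B n).derivative.derivative.eval 1
      + (closeP C0 t B n).derivative.eval 1) ≤ cst Ca K1 D * ((n : ℝ) * Real.sqrt n) := by
  have hC : 0 < D := by linarith
  have hθ0 := th_pos hD
  have hθ1 := th_lt hD
  have hC1 : 0 < D ^ K1 := by positivity
  unfold cst
  set C : ℝ := D with hCdef
  set θ : ℝ := 1 - D⁻¹ with hθ
  set C1 : ℝ := D ^ K1 with hC1def
  have hM := mom_nonneg C θ hC hθ0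
  set Q : ℝ := C1 * mom C θ ^ 2 with hQ
  have hQ0 : 0 ≤ Q := by positivity
  have hC' := hCa (16 * mom C θ * Q + 1) C (by positivity) hC
  set C' : ℝ := Ca * ((16 * mom C θ * Q + 1) * (Real.sqrt C * C)) with hC'def
  have hC'0 : 0 ≤ C' := by positivity
  have hrho := G.rho_pos
  set N : ℕ := C0 + (G.R + 1) * (n + 1) with hN
  set b := arr G s 0 N with hbdef
  set b' := arr G t 0 N with hb'def
  set q := arr G (sqS G N b) 0 N with hqdef
  have hb : IsArr G s 0 N b := arr_isArr G s 0 N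
  have hb' : IsArr G t 0 N b' := arr_isArr G t 0 N
  have hq : IsArr G (sqS G N b) 0 N q := arr_isArr G _ 0 N
  have hb0 := arr_nonneg' hs.cap.nonneg hb
  have hq0 := arr_nonneg' (sqS_nonneg hb0) hq
  obtain ⟨Cb, hCb0, hCb⟩ := arr_bound hs.cap le_rfl hb
  have hC0N : C0 ≤ N := by omega
  -- the closed array of squared area steps
  have hcl : m2 (closeP C0 t B n) ≤ n * close C0 t q n := by
    unfold closeP close
    rw [m2_sum, mul_sum]
    refine sum_le_sum fun m hm => ?_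
    rw [mem_range] at hm
    rw [m2_sum, mul_sum]
    refine sum_le_sum fun g _ => ?_
    rw [m2_C_mul]
    have h1 := m2_le' hs.cap hB hb hq (n - m) (by
      have h2 : (n - m : ℕ) + 1 ≤ n + 1 := by omega
      exact Nat.add_le_add_left (Nat.mul_le_mul_left _ h2) _) g
    have h3 : ((n - m : ℕ) : ℝ) * q (n - m) g ≤ n * q (n - m) g := by
      refine mul_le_mul_of_nonneg_right ?_ (hq0 _ _)
      exact_mod_cast Nat.sub_le n m
    calc t m g * m2 (B (n - m) g) ≤ t m g * (n * q (n - m) g) :=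
          mul_le_mul_of_nonneg_left (h1.trans h3) (ht.cap.nonneg m g)
      _ = _ := by ring
  have hcl0 : 0 ≤ close C0 t q n :=
    sum_nonneg fun m _ => sum_nonneg fun g _ => mul_nonneg (ht.cap.nonneg m g) (hq0 _ _)
  change G.rho ^ n * m2 (closeP C0 t B n) ≤ _
  rcases Nat.eq_zero_or_pos n with h0 | hn
  · have h1 : m2 (closeP C0 t B n) ≤ 0 := by
      refine hcl.trans ?_
      rw [h0]
      simp
    have h2 : G.rho ^ n * m2 (closeP C0 t B n) ≤ 0 :=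
      mul_nonpos_of_nonneg_of_nonpos (by positivity) h1
    refine h2.trans ?_
    positivity
  -- summability
  have hsb : ∀ z : ℂ, ‖z‖ < G.rho → ∀ g, Summable fun n : ℕ => ‖((b n g : ℝ) : ℂ) * z ^ n‖ := by
    intro z hz g
    have := arr_summable hs.cap le_rfl hb z hz 0 g
    simpa using this
  have hsq : ∀ z : ℂ, ‖z‖ < G.rho → ∀ g, Summable fun n : ℕ => ‖((q n g : ℝ) : ℂ) * z ^ n‖ := by
    intro z hz g
    exact arr_summable' (sqS_nonneg hb0) (HH G * ((2 * (N : ℝ)) ^ 2 * Cb)) le_rfl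
      (fun m g hg => sqS_bound hb0 Cb hCb0 hCb m g hg) hq z hz g
  have hF : ∀ z : ℂ, ‖z‖ < G.rho → HasSum (fun n : ℕ => ((close C0 t q n : ℝ) : ℂ) * z ^ n)
      (∑ g ∈ Icc (1 : ℤ) N, gf0 b' z g * sqKh G N z (gf0 b z) g) := by
    intro z hz
    have h1 := close_hasSum ht.cap (hsq z hz)
    have h2 : ∑ g ∈ Icc (1 : ℤ) C0, capz C0 t 0 z g * gf0 q z g =
        ∑ g ∈ Icc (1 : ℤ) N, gf0 b' z g * sqKh G N z (gf0 b z) g := by
      have h3 : ∑ g ∈ Icc (1 : ℤ) C0, capz C0 t 0 z g * gf0 q z g =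
          ∑ g ∈ Icc (1 : ℤ) N, capz C0 t 0 z g * gf0 q z g := by
        refine sum_subset (Icc_subset_Icc le_rfl (by exact_mod_cast hC0N)) fun g hg hg' => ?_
        rw [mem_Icc] at hg hg'
        have : capz C0 t 0 z g = 0 := by
          unfold capz
          refine sum_eq_zero fun m _ => ?_
          rw [ht.cap.supp_g m g (by omega)]
          simp
        rw [this, zero_mul]
      rw [h3]
      have h4 : ∀ g ∈ Icc (1 : ℤ) N, capz C0 t 0 z g = gf0 b' z g - G.Kap 0 0 z N (gf0 b' z) g := by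
        intro g hg
        have := gf_eq ht.cap le_rfl hb' z hz 0 g hg
        rw [gf_zero_eq] at this
        rw [this]
        simp [gf_zero_eq]
      have h5 : ∀ g ∈ Icc (1 : ℤ) N, sqKh G N z (gf0 b z) g =
          gf0 q z g - G.Kap 0 0 z N (gf0 q z) g := by
        intro g hg
        rw [gf0_eq hq (hsq z hz) g hg _ (sqS_hasSum (hsb z hz) g)]
        ring
      rw [sum_congr rfl (fun g hg => by rw [h4 g hg]), adjoint]
      exact sum_congr rfl (fun g hg => by rw [h5 g hg])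
    rw [← h2]
    exact h1
  have h6 := hC' G.rho (close C0 t q) hrho hG.rho_ge ?_ ?_ n hn
  · rw [abs_of_nonneg hcl0] at h6
    have hn' : (0 : ℝ) < n := by exact_mod_cast hn
    have h7 : (0 : ℝ) ≤ (n : ℝ) * Real.sqrt n := by positivity
    calc G.rho ^ n * m2 (closeP C0 t B n) ≤ G.rho ^ n * (n * close C0 t q n) :=
          mul_le_mul_of_nonneg_left hcl (by positivity)
      _ = n * (close C0 t q n * G.rho ^ n) := by ring
      _ ≤ n * (C' * Real.sqrt n) := mul_le_mul_of_nonneg_left h6 (by positivity)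
      _ = C' * (n * Real.sqrt n) := by ring
      _ ≤ (C' + 1) * (n * Real.sqrt n) := mul_le_mul_of_nonneg_right (by linarith) h7
  · intro z hz
    have h7 : ∀ m, 0 ≤ close C0 t q m := fun m =>
      sum_nonneg fun m _ => sum_nonneg fun g _ => mul_nonneg (ht.cap.nonneg m g) (hq0 _ _)
    have h8 : ‖((‖z‖ : ℝ) : ℂ)‖ < G.rho := by
      rw [Complex.norm_real, norm_norm]
      exact hz
    have h9 := (hF ((‖z‖ : ℝ) : ℂ) h8).summable
    have h10 : (fun m : ℕ => ((close C0 t q m : ℝ) : ℂ) * ((‖z‖ : ℝ) : ℂ) ^ m) = fun m : ℕ =>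
        (((close C0 t q m * ‖z‖ ^ m : ℝ)) : ℂ) := by
      ext m
      push_cast
      ring
    rw [h10] at h9
    have h11 : Summable fun m : ℕ => close C0 t q m * ‖z‖ ^ m := by
      exact_mod_cast h9
    refine h11.congr fun m => ?_
    rw [norm_mul, norm_pow, Complex.norm_real, Real.norm_of_nonneg (h7 m)]
  · intro z hz
    rw [(hF z hz).tsum_eq]
    have h7 := form_bound hC hθ0 hθ1 hG N z hz.le (gf0 b' z) (gf0 b z)
    have h8 := GM2.gf_weighted hC hθ0 hθ1 hC1 hW1 hG ht N b' hb' z hz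
    have h9 := GM2.gf_weighted hC hθ0 hθ1 hC1 hW1 hG hs N b hb z hz
    have h10 : 0 ≤ Real.sqrt ‖(G.rho : ℂ) - z‖ * ‖(G.rho : ℂ) - z‖ := by positivity
    calc ‖∑ g ∈ Icc (1 : ℤ) N, gf0 b' z g * sqKh G N z (gf0 b z) g‖ *
          (Real.sqrt ‖(G.rho : ℂ) - z‖ * ‖(G.rho : ℂ) - z‖)
        ≤ 16 * mom C θ * ((nsq N (mulg 1 (gf0 b' z)) + nsq N (mulg 1 (gf0 b z))) / 2) *
          (Real.sqrt ‖(G.rho : ℂ) - z‖ * ‖(G.rho : ℂ) - z‖) :=
          mul_le_mul_of_nonneg_right h7 h10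
      _ = 16 * mom C θ * ((nsq N (mulg 1 (gf0 b' z)) *
          (Real.sqrt ‖(G.rho : ℂ) - z‖ * ‖(G.rho : ℂ) - z‖) + nsq N (mulg 1 (gf0 b z)) *
          (Real.sqrt ‖(G.rho : ℂ) - z‖ * ‖(G.rho : ℂ) - z‖)) / 2) := by ring
      _ ≤ 16 * mom C θ * ((Q + Q) / 2) := by gcongr
      _ ≤ 16 * mom C θ * Q + 1 := by linarith

end QGM2

open QGM2 in
set_option linter.unusedVariables false in
theorem t_QGM2 (hC : QGC_Stmt) (hRE : QGRE_Stmt) (hSUP : QGSUP_Stmt) (hW : QGW_Stmt) :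
    QGM2_Stmt := by
  obtain ⟨K1, hW1⟩ := hW
  obtain ⟨Ca, hCa0, hCa⟩ := coef_hom
  obtain ⟨K, hK⟩ := (cst_PB Ca K1).le
  refine ⟨K, fun D hD G hG C0 s t hs ht B hB n => ?_⟩
  refine (core Ca hCa0 hCa K1 D hD (hW1 D hD) G hG C0 s t hs ht B hB n).trans ?_
  exact mul_le_mul_of_nonneg_right (hK D hD) (by positivity)

end Pool.Agent.KCG
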