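import Pool.Agent.KCQ.StmtsA
import Pool.Agent.KCG.GW
import Pool.Agent.KCG.GE
import Pool.Agent.KCG.GFIN

/-! Project EXW, module QGW: weighted bounds with constants which are powers of the class
parameter. The proof is the text of `FL.gw` with explicit constants. -/

set_option autoImplicit false

open Finset Filter Topology

namespace Pool.Agent.KCG

open Pool.Agent.Gap Pool.Agent.KCG.H22 Pool.Agent.FL Pool.Agent.KCG.GW Pool.Agent.EXW

namespace QGW

/-- the constant for `k = 0` -/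
noncomputable def kA (M c Cs : ℝ) : ℝ :=
  Cs ^ 2 + (2 / c) * (Cs + (M / (2 * c) + 1 / 2) * (M * Cs ^ 2))

/-- the next constant -/
noncomputable def kB (M c Cs K : ℝ) : ℝ :=
  (2 / c) * (Cs + (M / (2 * c) + 1 / 2) * (M * K))

/-- the constant of the weighted bounds -/
noncomputable def KK (C θ c Cs : ℝ) : ℝ :=
  kA (Mom C θ + 1) c Cs + kB (Mom C θ + 1) c Cs (kA (Mom C θ + 1) c Cs) +
    kB (Mom C θ + 1) c Cs (kB (Mom C θ + 1) c Cs (kA (Mom C θ + 1) c Cs)) + 1

theorem core {C θ c Cs : ℝ} (hC : 0 < C) (hθ : 0 < θ) (hθ1 : θ < 1) (hc : 0 < c) (hCs : 0 < Cs)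
    {G : GapKernel} (hG : Cls C θ G) (hCoer : Coer G c) (N : ℕ) (eps : ℝ) (z : ℂ)
    (v e : ℤ → ℂ) (heps : 0 ≤ eps) (hz : ‖z‖ ≤ G.rho) (hzne : z ≠ (G.rho : ℂ))
    (hs : G.Solves eps z N v e) (hv1 : ∀ g, ‖v g‖ ≤ Cs * lw 1 N e) :
    (∀ k : ℕ, k ≤ 2 → nsq N (mulg k v)
        ≤ KK C θ c Cs * (lw 4 N e) ^ 2 /
          (Real.sqrt ‖(G.rho : ℂ) - z‖ * ‖(G.rho : ℂ) - z‖ ^ k)) ∧
    (∀ k : ℕ, 1 ≤ k → k ≤ 2 → En N (mulg k v) + Pot eps N (mulg k v)
        ≤ KK C θ c Cs * (lw 4 N e) ^ 2 * Real.sqrt ‖(G.rho : ℂ) - z‖ /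
          ‖(G.rho : ℂ) - z‖ ^ k) := by
  set M : ℝ := Mom C θ + 1 with hM
  have hM0 : 0 < M := by have := mom_nonneg hC hθ; linarith
  have hMM : Mom C θ ≤ M := by linarith
  set C₁ : ℝ := M / (2 * c) + 1 / 2 with hC₁
  have hC₁0 : 0 ≤ C₁ := by positivity
  set K0 : ℝ := Cs ^ 2 + (2 / c) * (Cs + C₁ * (M * Cs ^ 2)) with hK0
  have hK00 : 0 ≤ K0 := by positivity
  set K1 : ℝ := (2 / c) * (Cs + C₁ * (M * K0)) with hK1
  have hK10 : 0 ≤ K1 := by positivity
  set K2 : ℝ := (2 / c) * (Cs + C₁ * (M * K1)) with hK2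
  have hK20 : 0 ≤ K2 := by positivity
  have hKK : KK C θ c Cs = K0 + K1 + K2 + 1 := rfl
  rw [hKK]
  clear hKK
  have hMd : ∀ f : ℤ → ℂ, Supp N f → ∑ g ∈ Icc (1 : ℤ) N, ∑ g' ∈ Icc (1 : ℤ) N,
      G.kk (g' - g) * ‖f g' - f g‖ ^ 2 ≤ M * En N f := fun f hf =>
    (kk_diff hC hθ hθ1 hG hf).trans (mul_le_mul_of_nonneg_right hMM (H22.En_nonneg N f))
  set L : ℝ := lw 4 N e with hL
  have hL0 : 0 ≤ L := lw_nonneg 4 N e
  have hv : ∀ g, ‖v g‖ ≤ Cs * L := fun g =>
    (hv1 g).trans (mul_le_mul_of_nonneg_left (lw_mono (by norm_num) N e) hCs.le)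
  set δ : ℝ := ‖(G.rho : ℂ) - z‖ with hδ
  have hδ0 : 0 < δ := norm_pos_iff.mpr (sub_ne_zero.mpr (Ne.symm hzne))
  have hδ2 : δ ≤ 1 := by
    have h1 : δ ≤ 2 * G.rho := delta_le hz
    have h2 := rho_le G
    linarith
  set A : ℝ := L ^ 2 with hA
  have hA0 : 0 ≤ A := sq_nonneg _
  set t : ℝ := Real.sqrt δ with ht
  have ht0 : 0 < t := Real.sqrt_pos.mpr hδ0
  have htt : t * t = δ := Real.mul_self_sqrt hδ0.le
  set X : ℝ := 1 / t with hX
  have hX0 : 0 < X := by positivity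
  have hXt : X * t = 1 := by rw [hX]; field_simp
  have ht1 : t ≤ 1 := by rw [ht]; exact Real.sqrt_le_one.mpr hδ2
  have hX1 : 1 ≤ X := by
    rw [← hXt]
    exact mul_le_of_le_one_right hX0.le ht1
  have hvsq : ∀ g, ‖v g‖ ^ 2 ≤ Cs ^ 2 * A := by
    intro g
    have := pow_le_pow_left₀ (norm_nonneg _) (hv g) 2
    rw [mul_pow] at this
    exact this
  -- k = 0
  have hk0 : nsq N v ≤ K0 * A * X := by
    set ζ : ℤ → ℝ := fun g => min (t * g) 1 with hζ
    set B : ℤ → ℤ → ℝ := fun d g => if (g : ℝ) ≤ X + |(d : ℝ)| then t * |(d : ℝ)| * ‖v g‖ else 0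
      with hB
    have hB0 : ∀ d g, 0 ≤ B d g := by
      intro d g
      simp only [hB]
      split_ifs
      · positivity
      · exact le_rfl
    have hBe : ∀ d g, B (-d) g = B d g := by
      intro d g
      simp only [hB]
      push_cast
      rw [abs_neg]
    have hζB : ∀ g ∈ Icc (1 : ℤ) N, ∀ g' ∈ Icc (1 : ℤ) N,
        |ζ g - ζ g'| * ‖v g'‖ ≤ B (g' - g) g' := by
      intro g _ g' _
      simp only [hB]
      push_cast
      split_ifs with h
      · refine mul_le_mul_of_nonneg_right ?_ (norm_nonneg _)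
        simp only [hζ]
        refine (abs_min_sub_min_le_max _ _ _ _).trans ?_
        rw [sub_self, abs_zero, max_eq_left (abs_nonneg _), ← mul_sub, abs_mul, abs_of_pos ht0,
          abs_sub_comm]
      · push Not at h
        have h0 := abs_nonneg ((g' : ℝ) - g)
        have h00 := le_abs_self ((g' : ℝ) - g)
        have h1 : X ≤ (g' : ℝ) := by linarith
        have h2 : X ≤ (g : ℝ) := by linarith
        have h3 : ∀ y : ℝ, X ≤ y → min (t * y) 1 = 1 := by
          intro y hy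
          refine min_eq_right ?_
          rw [← hXt]
          rw [mul_comm X t]; exact mul_le_mul_of_nonneg_left hy ht0.le
        simp only [hζ]
        rw [h3 _ h1, h3 _ h2, sub_self, abs_zero, zero_mul]
    have hw := weighted hc hM0 hCoer heps hz hs hMd ζ B hB0 hBe hζB
    rw [← hδ, ← hC₁] at hw
    have hsrc := source_le (N := N) (e := e) hv ζ δ (by
      intro g hg
      rw [Finset.mem_Icc] at hg
      have hg1 : (1 : ℝ) ≤ g := by exact_mod_cast hg.1
      have h1 : 0 ≤ ζ g := le_min (by positivity) zero_le_one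
      have h2 : ζ g ≤ t * g := min_le_left _ _
      calc ζ g ^ 2 ≤ (t * g) ^ 2 := pow_le_pow_left₀ h1 h2 2
        _ = δ * (g : ℝ) ^ 2 := by rw [← htt]; ring
        _ ≤ δ * (g : ℝ) ^ 4 :=
          mul_le_mul_of_nonneg_left (pow_le_pow_right₀ hg1 (by norm_num)) hδ0.le)
    rw [← hL] at hsrc
    have hBs : ∑ g ∈ Icc (1 : ℤ) N, ∑ g' ∈ Icc (1 : ℤ) N, G.kk (g' - g) * B (g' - g) g' ^ 2 ≤
        δ * (M * (Cs ^ 2 * A) * X) := by
      refine (sum_dg_le N (fun d g' => G.kk d * B d g' ^ 2)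
        (fun d g => mul_nonneg (G.kk_nonneg d) (sq_nonneg _))).trans ?_
      have h1 : ∀ d ∈ Icc (-(N : ℤ)) N, ∑ g' ∈ Icc (1 : ℤ) N, G.kk d * B d g' ^ 2 ≤
          G.kk d * (|(d : ℝ)| + 2) ^ 4 * (δ * (Cs ^ 2 * A) * X) := by
        intro d _
        rw [← Finset.mul_sum, mul_assoc]
        refine mul_le_mul_of_nonneg_left ?_ (G.kk_nonneg d)
        have hd0 := abs_nonneg (d : ℝ)
        have h2 : ∀ g : ℤ, B d g ^ 2 =
            if (g : ℝ) ≤ X + |(d : ℝ)| then (t * |(d : ℝ)| * ‖v g‖) ^ 2 else 0 := by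
          intro g
          simp only [hB]
          split_ifs
          · rfl
          · norm_num
        simp only [h2]
        refine (sum_small_le N (X + |(d : ℝ)|) (δ * |(d : ℝ)| ^ 2 * (Cs ^ 2 * A)) (by positivity)
          (fun g => (t * |(d : ℝ)| * ‖v g‖) ^ 2) ?_ (by positivity)).trans ?_
        · intro g
          have : (t * |(d : ℝ)| * ‖v g‖) ^ 2 = δ * |(d : ℝ)| ^ 2 * ‖v g‖ ^ 2 := by
            rw [← htt]; ring
          rw [this]
          exact mul_le_mul_of_nonneg_left (hvsq g) (by positivity)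
        · have h3 : (X + |(d : ℝ)|) * |(d : ℝ)| ^ 2 ≤ (|(d : ℝ)| + 2) ^ 4 * X := by
            have h4 : X + |(d : ℝ)| ≤ (|(d : ℝ)| + 2) * X := by
              have := mul_nonneg hd0 (sub_nonneg.2 hX1)
              linarith
            have h5 : |(d : ℝ)| ^ 2 ≤ (|(d : ℝ)| + 2) ^ 2 :=
              pow_le_pow_left₀ hd0 (by linarith) 2
            have h6 : (|(d : ℝ)| + 2) ^ 3 ≤ (|(d : ℝ)| + 2) ^ 4 :=
              pow_le_pow_right₀ (by linarith) (by norm_num)
            calc (X + |(d : ℝ)|) * |(d : ℝ)| ^ 2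
                ≤ ((|(d : ℝ)| + 2) * X) * (|(d : ℝ)| + 2) ^ 2 :=
                  mul_le_mul h4 h5 (by positivity) (by positivity)
              _ = (|(d : ℝ)| + 2) ^ 3 * X := by ring
              _ ≤ _ := mul_le_mul_of_nonneg_right h6 hX0.le
          calc (X + |(d : ℝ)|) * (δ * |(d : ℝ)| ^ 2 * (Cs ^ 2 * A))
              = ((X + |(d : ℝ)|) * |(d : ℝ)| ^ 2) * (δ * (Cs ^ 2 * A)) := by ring
            _ ≤ ((|(d : ℝ)| + 2) ^ 4 * X) * (δ * (Cs ^ 2 * A)) :=
                mul_le_mul_of_nonneg_right h3 (by positivity)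
            _ = _ := by ring
      refine (Finset.sum_le_sum h1).trans ?_
      rw [← Finset.sum_mul]
      calc (∑ d ∈ Icc (-(N : ℤ)) N, G.kk d * (|(d : ℝ)| + 2) ^ 4) * (δ * (Cs ^ 2 * A) * X)
          ≤ M * (δ * (Cs ^ 2 * A) * X) :=
            mul_le_mul_of_nonneg_right ((mom_le hC hθ hθ1 hG _).trans hMM) (by positivity)
        _ = _ := by ring
    set V : ℤ → ℂ := fun g => (ζ g : ℂ) * v g with hV
    have hE := H22.En_nonneg N V
    have hP := Pot_nonneg heps N V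
    have hn := H22.nsq_nonneg N V
    have h1 : c / 2 * (δ * nsq N V) ≤ δ * (Cs * A + C₁ * (M * (Cs ^ 2 * A) * X)) := by
      have h2 : c / 2 * (δ * nsq N V) ≤ c / 2 * (δ * nsq N V + En N V + Pot eps N V) :=
        mul_le_mul_of_nonneg_left (by linarith) (by positivity)
      have h3 := mul_le_mul_of_nonneg_left hBs hC₁0
      calc c / 2 * (δ * nsq N V) ≤ δ * (Cs * L) * L +
            C₁ * (δ * (M * (Cs ^ 2 * A) * X)) := by linarith
        _ = _ := by rw [hA]; ring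
    have h2 : c / 2 * nsq N V ≤ Cs * A + C₁ * (M * (Cs ^ 2 * A) * X) := by
      have : δ * (c / 2 * nsq N V) ≤ δ * (Cs * A + C₁ * (M * (Cs ^ 2 * A) * X)) := by linarith
      exact le_of_mul_le_mul_left this hδ0
    have h3 : Cs * A + C₁ * (M * (Cs ^ 2 * A) * X) ≤ (Cs + C₁ * (M * Cs ^ 2)) * A * X := by
      have h4 : Cs * A * 1 ≤ Cs * A * X := mul_le_mul_of_nonneg_left hX1 (by positivity)
      linarith
    have h4 : nsq N V ≤ (2 / c) * ((Cs + C₁ * (M * Cs ^ 2)) * A * X) := by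
      have h5 := mul_le_mul_of_nonneg_left (h2.trans h3) (by positivity : 0 ≤ 2 / c)
      have h6 : 2 / c * (c / 2 * nsq N V) = nsq N V := by field_simp
      rw [h6] at h5
      exact h5
    have h5 : nsq N v ≤ X * (Cs ^ 2 * A) + nsq N V := by
      have h6 := sum_small_le N X (Cs ^ 2 * A) hX0.le (fun g => ‖v g‖ ^ 2) hvsq (by positivity)
      refine le_trans ?_ (add_le_add_left h6 _)
      unfold nsq
      rw [← Finset.sum_add_distrib]
      refine Finset.sum_le_sum fun g hg => ?_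
      split_ifs with h
      · have := sq_nonneg ‖V g‖
        linarith
      · have h7 : ζ g = 1 := by
          simp only [hζ]
          refine min_eq_right ?_
          rw [← hXt]
          rw [mul_comm X t]; exact mul_le_mul_of_nonneg_left (not_le.1 h).le ht0.le
        simp only [hV]
        rw [h7]
        simp
    calc nsq N v ≤ X * (Cs ^ 2 * A) + (2 / c) * ((Cs + C₁ * (M * Cs ^ 2)) * A * X) := by
          linarith
      _ = K0 * A * X := by rw [hK0]; ring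
  -- k = 1
  have hk1 : δ * nsq N (mulg 1 v) + En N (mulg 1 v) + Pot eps N (mulg 1 v) ≤ K1 * A * X := by
    set ζ : ℤ → ℝ := fun g => (g : ℝ) with hζ
    set B : ℤ → ℤ → ℝ := fun d g => |(d : ℝ)| * ‖v g‖ with hB
    have hB0 : ∀ d g, 0 ≤ B d g := by
      intro d g
      simp only [hB]
      positivity
    have hBe : ∀ d g, B (-d) g = B d g := by
      intro d g
      simp only [hB]
      push_cast
      rw [abs_neg]
    have hζB : ∀ g ∈ Icc (1 : ℤ) N, ∀ g' ∈ Icc (1 : ℤ) N,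
        |ζ g - ζ g'| * ‖v g'‖ ≤ B (g' - g) g' := by
      intro g _ g' _
      simp only [hB, hζ]
      push_cast
      rw [abs_sub_comm]
    have hw := weighted hc hM0 hCoer heps hz hs hMd ζ B hB0 hBe hζB
    rw [← hδ, ← hC₁] at hw
    have hsrc := source_le (N := N) (e := e) hv ζ 1 (by
      intro g hg
      rw [Finset.mem_Icc] at hg
      have hg1 : (1 : ℝ) ≤ g := by exact_mod_cast hg.1
      rw [one_mul]
      exact pow_le_pow_right₀ hg1 (by norm_num))
    rw [← hL] at hsrc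
    have hBs : ∑ g ∈ Icc (1 : ℤ) N, ∑ g' ∈ Icc (1 : ℤ) N, G.kk (g' - g) * B (g' - g) g' ^ 2 ≤
        M * nsq N v := by
      have h1 := sum_w_le hC hθ hθ1 hG N (fun d => |(d : ℝ)| ^ 2) (by
        intro d
        have h0 := abs_nonneg (d : ℝ)
        calc |(d : ℝ)| ^ 2 ≤ (|(d : ℝ)| + 2) ^ 2 := pow_le_pow_left₀ h0 (by linarith) 2
          _ ≤ (|(d : ℝ)| + 2) ^ 4 := pow_le_pow_right₀ (by linarith) (by norm_num))
        (fun g => ‖v g‖ ^ 2) (fun g => sq_nonneg _)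
      have h2 : ∑ g ∈ Icc (1 : ℤ) N, ∑ g' ∈ Icc (1 : ℤ) N, G.kk (g' - g) * B (g' - g) g' ^ 2 =
          ∑ g ∈ Icc (1 : ℤ) N, ∑ g' ∈ Icc (1 : ℤ) N,
            G.kk (g' - g) * (|((g' - g : ℤ) : ℝ)| ^ 2 * ‖v g'‖ ^ 2) :=
        Finset.sum_congr rfl fun g _ => Finset.sum_congr rfl fun g' _ => by
          simp only [hB]; rw [mul_pow]
      rw [h2]
      exact h1.trans (mul_le_mul_of_nonneg_right hMM (H22.nsq_nonneg N v))
    have hV : (fun g => (ζ g : ℂ) * v g) = mulg 1 v := by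
      funext g
      simp only [hζ, mulg, pow_one]
      push_cast
      ring
    rw [hV] at hw
    have h4 : Cs * A * 1 ≤ Cs * A * X := mul_le_mul_of_nonneg_left hX1 (by positivity)
    have h5 : C₁ * (M * nsq N v) ≤ C₁ * (M * (K0 * A * X)) :=
      mul_le_mul_of_nonneg_left (mul_le_mul_of_nonneg_left hk0 hM0.le) hC₁0
    have h55 := mul_le_mul_of_nonneg_left hBs hC₁0
    have h6 : c / 2 * (δ * nsq N (mulg 1 v) + En N (mulg 1 v) + Pot eps N (mulg 1 v)) ≤
        (Cs + C₁ * (M * K0)) * A * X := by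
      have h7 : 1 * (Cs * L) * L = Cs * A := by rw [hA]; ring
      rw [h7] at hsrc
      calc _ ≤ Cs * A * X + C₁ * (M * (K0 * A * X)) := by linarith
        _ = _ := by ring
    have h7 := mul_le_mul_of_nonneg_left h6 (by positivity : 0 ≤ 2 / c)
    have h8 : 2 / c * (c / 2 * (δ * nsq N (mulg 1 v) + En N (mulg 1 v) + Pot eps N (mulg 1 v))) =
        δ * nsq N (mulg 1 v) + En N (mulg 1 v) + Pot eps N (mulg 1 v) := by field_simp
    rw [h8] at h7
    refine h7.trans (le_of_eq ?_)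
    rw [hK1]
    ring
  -- k = 2
  have h1δ : 1 ≤ 1 / δ := by rw [le_div_iff₀ hδ0]; linarith
  have hk1' : nsq N (mulg 1 v) ≤ K1 * A * X / δ := by
    rw [le_div_iff₀ hδ0]
    have := H22.En_nonneg N (mulg 1 v)
    have := Pot_nonneg heps N (mulg 1 v)
    linarith
  have hk2 : δ * nsq N (mulg 2 v) + En N (mulg 2 v) + Pot eps N (mulg 2 v) ≤ K2 * A * X / δ := by
    set ζ : ℤ → ℝ := fun g => (g : ℝ) ^ 2 with hζ
    set B : ℤ → ℤ → ℝ := fun d g => |(d : ℝ)| * (|(d : ℝ)| + 2) * ‖mulg 1 v g‖ with hB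
    have hB0 : ∀ d g, 0 ≤ B d g := by
      intro d g
      simp only [hB]
      positivity
    have hBe : ∀ d g, B (-d) g = B d g := by
      intro d g
      simp only [hB]
      push_cast
      rw [abs_neg]
    have hζB : ∀ g ∈ Icc (1 : ℤ) N, ∀ g' ∈ Icc (1 : ℤ) N,
        |ζ g - ζ g'| * ‖v g'‖ ≤ B (g' - g) g' := by
      intro g hg g' hg'
      rw [Finset.mem_Icc] at hg hg'
      have hg1 : (1 : ℝ) ≤ g := by exact_mod_cast hg.1
      have hg1' : (1 : ℝ) ≤ g' := by exact_mod_cast hg'.1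
      simp only [hB, hζ, mulg, pow_one]
      push_cast
      rw [norm_mul, Complex.norm_intCast, ← mul_assoc]
      refine mul_le_mul_of_nonneg_right ?_ (norm_nonneg _)
      have h1 : (g : ℝ) ^ 2 - (g' : ℝ) ^ 2 = (g - g') * (g + g') := by ring
      rw [h1, abs_mul, abs_of_pos (by linarith : (0 : ℝ) < g + g'),
        abs_of_pos (by linarith : (0 : ℝ) < g'), abs_sub_comm]
      have h0 := abs_nonneg ((g' : ℝ) - g)
      have h00 := neg_abs_le ((g' : ℝ) - g)
      have h2 : (g : ℝ) + g' ≤ (|(g' : ℝ) - g| + 2) * g' := by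
        have := mul_nonneg h0 (sub_nonneg.2 hg1')
        linarith
      calc |(g' : ℝ) - g| * (g + g') ≤ |(g' : ℝ) - g| * ((|(g' : ℝ) - g| + 2) * g') :=
            mul_le_mul_of_nonneg_left h2 h0
        _ = _ := by ring
    have hw := weighted hc hM0 hCoer heps hz hs hMd ζ B hB0 hBe hζB
    rw [← hδ, ← hC₁] at hw
    have hsrc := source_le (N := N) (e := e) hv ζ 1 (by
      intro g hg
      rw [one_mul]
      simp only [hζ]
      exact le_of_eq (by ring))
    rw [← hL] at hsrc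
    have hBs : ∑ g ∈ Icc (1 : ℤ) N, ∑ g' ∈ Icc (1 : ℤ) N, G.kk (g' - g) * B (g' - g) g' ^ 2 ≤
        M * nsq N (mulg 1 v) := by
      have h1 := sum_w_le hC hθ hθ1 hG N (fun d => (|(d : ℝ)| * (|(d : ℝ)| + 2)) ^ 2) (by
        intro d
        have h0 := abs_nonneg (d : ℝ)
        calc (|(d : ℝ)| * (|(d : ℝ)| + 2)) ^ 2 ≤ ((|(d : ℝ)| + 2) * (|(d : ℝ)| + 2)) ^ 2 :=
              pow_le_pow_left₀ (by positivity)
                (mul_le_mul_of_nonneg_right (by linarith) (by positivity)) 2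
          _ = (|(d : ℝ)| + 2) ^ 4 := by ring)
        (fun g => ‖mulg 1 v g‖ ^ 2) (fun g => sq_nonneg _)
      have h2 : ∑ g ∈ Icc (1 : ℤ) N, ∑ g' ∈ Icc (1 : ℤ) N, G.kk (g' - g) * B (g' - g) g' ^ 2 =
          ∑ g ∈ Icc (1 : ℤ) N, ∑ g' ∈ Icc (1 : ℤ) N,
            G.kk (g' - g) * ((|((g' - g : ℤ) : ℝ)| * (|((g' - g : ℤ) : ℝ)| + 2)) ^ 2 *
              ‖mulg 1 v g'‖ ^ 2) :=
        Finset.sum_congr rfl fun g _ => Finset.sum_congr rfl fun g' _ => by
          simp only [hB]; rw [mul_pow]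
      rw [h2]
      exact h1.trans (mul_le_mul_of_nonneg_right hMM (H22.nsq_nonneg N (mulg 1 v)))
    have hV : (fun g => (ζ g : ℂ) * v g) = mulg 2 v := by
      funext g
      simp only [hζ, mulg]
      push_cast
      ring
    rw [hV] at hw
    have h4 : Cs * A * 1 ≤ Cs * A * (X * (1 / δ)) := by
      refine mul_le_mul_of_nonneg_left ?_ (by positivity)
      calc (1 : ℝ) = 1 * 1 := by ring
        _ ≤ _ := mul_le_mul hX1 h1δ zero_le_one (by positivity)
    have h5 : C₁ * (M * nsq N (mulg 1 v)) ≤ C₁ * (M * (K1 * A * X / δ)) :=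
      mul_le_mul_of_nonneg_left (mul_le_mul_of_nonneg_left hk1' hM0.le) hC₁0
    have h55 := mul_le_mul_of_nonneg_left hBs hC₁0
    have h6 : c / 2 * (δ * nsq N (mulg 2 v) + En N (mulg 2 v) + Pot eps N (mulg 2 v)) ≤
        (Cs + C₁ * (M * K1)) * A * X / δ := by
      have h7 : 1 * (Cs * L) * L = Cs * A := by rw [hA]; ring
      rw [h7] at hsrc
      calc _ ≤ Cs * A * (X * (1 / δ)) + C₁ * (M * (K1 * A * X / δ)) := by linarith
        _ = _ := by ring
    have h7 := mul_le_mul_of_nonneg_left h6 (by positivity : 0 ≤ 2 / c)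
    have h8 : 2 / c * (c / 2 * (δ * nsq N (mulg 2 v) + En N (mulg 2 v) + Pot eps N (mulg 2 v))) =
        δ * nsq N (mulg 2 v) + En N (mulg 2 v) + Pot eps N (mulg 2 v) := by field_simp
    rw [h8] at h7
    refine h7.trans (le_of_eq ?_)
    rw [hK2]
    ring
  have hAX : 0 ≤ A * X := by positivity
  have e1 := H22.En_nonneg N (mulg 1 v)
  have e2 := H22.En_nonneg N (mulg 2 v)
  have p1 := Pot_nonneg heps N (mulg 1 v)
  have p2 := Pot_nonneg heps N (mulg 2 v)
  have n1 := H22.nsq_nonneg N (mulg 1 v)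
  have n2 := H22.nsq_nonneg N (mulg 2 v)
  have hk2' : nsq N (mulg 2 v) ≤ K2 * A * X / δ / δ := by
    rw [le_div_iff₀ hδ0]
    linarith
  constructor
  · intro k hk
    have hform : ∀ (K : ℝ), K ≤ K0 + K1 + K2 + 1 → ∀ y : ℝ, y ≤ K * (A * X / δ ^ k) →
        y ≤ (K0 + K1 + K2 + 1) * A / (t * δ ^ k) := by
      intro K hK y hy
      have h1 : (K0 + K1 + K2 + 1) * A / (t * δ ^ k) = (K0 + K1 + K2 + 1) * (A * X / δ ^ k) := by
        rw [hX]; field_simp
      rw [h1]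
      exact hy.trans (mul_le_mul_of_nonneg_right hK (by positivity))
    interval_cases k
    · refine hform K0 (by linarith) _ ?_
      have : mulg 0 v = v := by funext g; simp [mulg]
      rw [this, pow_zero, div_one]
      linarith
    · refine hform K1 (by linarith) _ ?_
      rw [pow_one]
      refine hk1'.trans (le_of_eq ?_)
      ring
    · refine hform K2 (by linarith) _ ?_
      refine hk2'.trans (le_of_eq ?_)
      field_simp
  · intro k hk1l hk
    have hform : ∀ (K : ℝ), K ≤ K0 + K1 + K2 + 1 → ∀ y : ℝ, y ≤ K * (A * X * δ / δ ^ k) →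
        y ≤ (K0 + K1 + K2 + 1) * A * t / δ ^ k := by
      intro K hK y hy
      have h1 : (K0 + K1 + K2 + 1) * A * t / δ ^ k = (K0 + K1 + K2 + 1) * (A * X * δ / δ ^ k) := by
        have : X * δ = t := by rw [← htt, ← mul_assoc, hXt, one_mul]
        rw [mul_assoc A X δ, this]
        ring
      rw [h1]
      exact hy.trans (mul_le_mul_of_nonneg_right hK (by positivity))
    interval_cases k
    · refine hform K1 (by linarith) _ ?_
      have h1 : K1 * (A * X * δ / δ ^ 1) = K1 * A * X := by field_simp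
      rw [h1]
      have := mul_nonneg hδ0.le n1
      linarith
    · refine hform K2 (by linarith) _ ?_
      have h1 : K2 * (A * X * δ / δ ^ 2) = K2 * A * X / δ := by field_simp
      rw [h1]
      have := mul_nonneg hδ0.le n2
      linarith


lemma mom_eq (C θ : ℝ) : Mom C θ = 16 * (C * ∑' m : ℕ, ((m : ℝ) + 1) ^ 4 * θ ^ m) := by
  unfold Mom
  rw [← tsum_mul_left, ← tsum_mul_left]
  refine tsum_congr fun m => ?_
  ring

lemma mom_pb : PB fun D => Mom D (1 - D⁻¹) + 1 := by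
  have h1 : PB fun D => ∑' m : ℕ, ((m : ℝ) + 1) ^ 4 * (1 - D⁻¹) ^ m :=
    PB.geo 4 (fun D hD => (th_pos hD).le) LB.inv_self fun D _ => le_rfl
  have h2 : PB fun D => 16 * (D * ∑' m : ℕ, ((m : ℝ) + 1) ^ 4 * (1 - D⁻¹) ^ m) + 1 :=
    ((PB.const 16).mul (PB.id.mul h1)).add (PB.const 1)
  exact h2.congr fun D _ => by rw [mom_eq]

lemma kk_pb {c Cs : ℝ → ℝ} (hc : LB c) (hCs : PB Cs) :
    PB fun D => KK D (1 - D⁻¹) (c D) (Cs D) := by
  have hM := mom_pb
  have h2c : PB fun D => 2 / c D := (PB.const 2).div hc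
  have hC1 : PB fun D => (Mom D (1 - D⁻¹) + 1) / (2 * c D) + 1 / 2 :=
    (hM.div ((LB.const (by norm_num : (0:ℝ) < 2)).mul hc)).add (PB.const _)
  have hA : PB fun D => kA (Mom D (1 - D⁻¹) + 1) (c D) (Cs D) :=
    (hCs.pow 2).add (h2c.mul (hCs.add (hC1.mul (hM.mul (hCs.pow 2)))))
  have hB : PB fun D => kB (Mom D (1 - D⁻¹) + 1) (c D) (Cs D)
      (kA (Mom D (1 - D⁻¹) + 1) (c D) (Cs D)) :=
    h2c.mul (hCs.add (hC1.mul (hM.mul hA)))
  have hB2 : PB fun D => kB (Mom D (1 - D⁻¹) + 1) (c D) (Cs D)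
      (kB (Mom D (1 - D⁻¹) + 1) (c D) (Cs D) (kA (Mom D (1 - D⁻¹) + 1) (c D) (Cs D))) :=
    h2c.mul (hCs.add (hC1.mul (hM.mul hB)))
  exact ((hA.add hB).add hB2).add (PB.const 1)

end QGW

open QGW in
/-- MODULE QGW -/
theorem t_QGW (h : QGC_Stmt) (h2 : QGSUP_Stmt) : QGW_Stmt := by
  obtain ⟨Kc, hCo⟩ := h
  obtain ⟨Ks, hSUP⟩ := h2
  have hc : LB fun D => (D ^ Kc)⁻¹ := ⟨Kc, fun D _ => le_rfl⟩
  obtain ⟨K, hK⟩ := (kk_pb hc (PB.pow_self Ks)).le
  refine ⟨K, fun D hD G hG N eps z v e heps hz hzne hs => ?_⟩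
  have hD0 : 0 < D := by linarith
  have hCoer : Coer G ((D ^ Kc)⁻¹) := fun N eps z f h1 h2 h3 => hCo D hD G hG N eps z f h1 h2 h3
  obtain ⟨hv1, -⟩ := hSUP D hD G hG N eps z v e heps hz hs
  obtain ⟨a1, a2⟩ := core hD0 (th_pos hD) (th_lt hD) (by positivity) (by positivity) hG hCoer
    N eps z v e heps hz hzne hs hv1
  have hKD := hK D hD
  refine ⟨fun k hk => (a1 k hk).trans ?_, fun k hk1 hk => (a2 k hk1 hk).trans ?_⟩
  · gcongr
  · gcongr

end Pool.Agent.KCG
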