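import Mathlib
import Pool.Agent.KCQ.StmtsA
import Pool.Agent.KCG.GE
import Pool.Agent.KCG.GFIN

/-!
# k-column-convex polygons, rates (text of `EXW/QPAR.lean`), module QPAR: scales and parameters
-/

set_option autoImplicit false

open Finset Filter Topology

namespace Pool.Agent.KCG

open Pool.Agent.Gap Pool.Agent.FL Pool.Agent.EXW

namespace QPAR

/-- the real part: all size relations between `n`, `n0`, `W` and `D` -/
lemma sizes {D W P m s : ℝ} {n n0 : ℝ} (hD : 2 ≤ D) (hW : 2 ≤ W) (hP : 1 ≤ P)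
    (hm1 : 1 ≤ m) (hmP : m ≤ P) (hs : (D ^ 2)⁻¹ ≤ s) (hsP : s ≤ P) (hn0 : 0 ≤ n0)
    (hbig : P * P * D ^ 11 * W ≤ n) (hnear : |n0 * m - 2 * s * n| ≤ m) :
    1 ≤ n ∧ n ≤ P * D ^ 2 * n0 ∧ n0 ≤ P * D ^ 2 * n ∧ P * D ^ 9 * W ≤ n0 ∧ W ≤ n := by
  have hDp : 0 < D := by linarith
  have hWp : 0 < W := by linarith
  have hPp : 0 < P := by linarith
  have hD10 : (1 : ℝ) ≤ D ^ 9 := one_le_pow₀ (by linarith)
  have hD10' : (1 : ℝ) ≤ D ^ 11 := one_le_pow₀ (by linarith)
  have hPP : 1 ≤ P * P := by nlinarith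
  have hPPD : 1 ≤ P * P * D ^ 11 := by nlinarith
  have hWn : W ≤ n := by
    have : 1 * W ≤ P * P * D ^ 11 * W := mul_le_mul_of_nonneg_right hPPD hWp.le
    linarith
  have hn1 : 1 ≤ n := by linarith
  have hnp : 0 < n := by linarith
  obtain ⟨a1, a2⟩ := abs_le.mp hnear
  have hsD : 1 ≤ s * D ^ 2 := by
    have := mul_le_mul_of_nonneg_right hs (pow_pos hDp 2).le
    rwa [inv_mul_cancel₀ (pow_pos hDp 2).ne'] at this
  have hPD : P * D ^ 2 ≤ n := by
    have h1 : P * D ^ 2 * 1 ≤ P * D ^ 2 * (P * D ^ 9 * W) := by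
      refine mul_le_mul_of_nonneg_left ?_ (by positivity)
      have h2 : 1 ≤ P * D ^ 9 := by nlinarith
      nlinarith
    calc P * D ^ 2 = P * D ^ 2 * 1 := (mul_one _).symm
      _ ≤ P * D ^ 2 * (P * D ^ 9 * W) := h1
      _ = P * P * D ^ 11 * W := by ring
      _ ≤ n := hbig
  have e1 : 2 * n ≤ (n0 + 1) * P * D ^ 2 := by
    have b1 : 2 * s * n ≤ (n0 + 1) * m := by linarith
    have b2 : (n0 + 1) * m ≤ (n0 + 1) * P := mul_le_mul_of_nonneg_left hmP (by linarith)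
    have b3 : 2 * n * 1 ≤ 2 * n * (s * D ^ 2) := mul_le_mul_of_nonneg_left hsD (by linarith)
    calc 2 * n = 2 * n * 1 := (mul_one _).symm
      _ ≤ 2 * n * (s * D ^ 2) := b3
      _ = 2 * s * n * D ^ 2 := by ring
      _ ≤ (n0 + 1) * P * D ^ 2 := mul_le_mul_of_nonneg_right (b1.trans b2) (pow_pos hDp 2).le
  have e2 : n ≤ P * D ^ 2 * n0 := by nlinarith
  have e3 : n0 ≤ P * D ^ 2 * n := by
    have c1 : n0 * 1 ≤ n0 * m := mul_le_mul_of_nonneg_left hm1 hn0
    have c2 : n0 * m ≤ 2 * s * n + m := by linarith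
    have c3 : 2 * s * n ≤ 2 * P * n := by nlinarith
    have c4 : m ≤ P * n := by nlinarith
    have c5 : 3 * (P * n) ≤ D ^ 2 * (P * n) := by
      refine mul_le_mul_of_nonneg_right ?_ (by positivity)
      nlinarith
    nlinarith
  have e4 : P * D ^ 9 * W ≤ n0 := by
    have d1 : P * D ^ 2 * (P * D ^ 9 * W) ≤ P * D ^ 2 * n0 := by
      calc P * D ^ 2 * (P * D ^ 9 * W) = P * P * D ^ 11 * W := by ring
        _ ≤ n := hbig
        _ ≤ _ := e2
    exact le_of_mul_le_mul_left d1 (by positivity)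
  exact ⟨hn1, e2, e3, e4, hWn⟩

/-- the complex part -/
lemma norm_exp_small {w : ℂ} {W : ℝ} {n : ℕ} (hw : ‖w‖ ≤ W) (hn : 0 < n) (hWn : W ≤ n) :
    ‖1 - Complex.exp (-(w / n))‖ ≤ 2 * (W / n) ∧
      ‖(1 - Complex.exp (-(w / n))) - w / n‖ ≤ (W / n) ^ 2 := by
  have hn' : (0 : ℝ) < n := by exact_mod_cast hn
  have h1 : ‖-(w / (n : ℂ))‖ ≤ W / n := by
    rw [norm_neg, norm_div, Complex.norm_natCast]
    exact div_le_div_of_nonneg_right hw hn'.le
  have h2 : ‖-(w / (n : ℂ))‖ ≤ 1 := h1.trans ((div_le_one hn').2 hWn)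
  constructor
  · have := Complex.norm_exp_sub_one_le h2
    rw [norm_sub_rev]
    linarith
  · have := Complex.norm_exp_sub_one_sub_id_le h2
    have e : (1 - Complex.exp (-(w / n))) - w / n = -(Complex.exp (-(w / n)) - 1 - -(w / n)) := by
      ring
    rw [e, norm_neg]
    refine this.trans ?_
    exact pow_le_pow_left₀ (norm_nonneg _) h1 2

lemma norm_exp_eq {w : ℂ} {n : ℕ} (hw : w.re = 1) :
    ‖Complex.exp (-(w / n))‖ = Real.exp (-(1 / n)) := by
  rw [Complex.norm_exp]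
  congr 1
  rw [Complex.neg_re, Complex.div_natCast_re, hw]

lemma exp_lower {n : ℕ} (hn : 1 ≤ n) : 1 / (2 * (n : ℝ)) ≤ 1 - Real.exp (-(1 / n)) := by
  have hn' : (1 : ℝ) ≤ n := by exact_mod_cast hn
  have hp : (0 : ℝ) < n := by linarith
  -- exp (-x) ≤ 1 / (1 + x)
  have h1 : 1 + 1 / (n : ℝ) ≤ Real.exp (1 / n) := by
    have := Real.add_one_le_exp (1 / (n : ℝ))
    linarith
  have h2 : Real.exp (-(1 / (n : ℝ))) ≤ (1 + 1 / (n : ℝ))⁻¹ := by
    rw [Real.exp_neg]
    exact inv_anti₀ (by positivity) h1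
  have h3 : (1 + 1 / (n : ℝ))⁻¹ = n / (n + 1) := by
    field_simp
  rw [h3] at h2
  have h4 : 1 / (2 * (n : ℝ)) ≤ 1 - (n : ℝ) / (n + 1) := by
    rw [div_le_iff₀ (by positivity)]
    have : (1 - (n : ℝ) / (n + 1)) * (2 * n) = 2 * n / (n + 1) := by field_simp; ring
    rw [this, le_div_iff₀ (by positivity)]
    linarith
  linarith

end QPAR

open QPAR in
theorem t_QPAR : QPAR_Stmt := by
  obtain ⟨K, hK⟩ := par_bounds
  refine ⟨2 * K + 11, 3 * K + 10, ?_⟩
  intro D W G n n0 eps eps' h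
  have hD := h.D2
  have hW := h.W2
  obtain ⟨m1, m2, h1, h2, s1, s2⟩ := hK D hD G h.cls
  have hDp : 0 < D := by linarith
  have hWp : 0 < W := by linarith
  have hD1 : (1 : ℝ) ≤ D := by linarith
  have hW1 : (1 : ℝ) ≤ W := by linarith
  set P : ℝ := D ^ K with hPdef
  have hP : 1 ≤ P := one_le_pow₀ hD1
  have hPp : 0 < P := by linarith
  have hbig : P * P * D ^ 11 * W ≤ n := by
    refine le_trans ?_ h.big
    have e : (D * W) ^ (2 * K + 11) = P * P * D ^ 11 * W ^ (2 * K + 11) := by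
      rw [mul_pow, hPdef]; ring
    rw [e]
    refine mul_le_mul_of_nonneg_left ?_ (by positivity)
    exact le_self_pow₀ hW1 (by omega)
  obtain ⟨c1, c2, c3, c4, c5⟩ := sizes hD hW hP m1 m2 s1 s2 (Nat.cast_nonneg n0) hbig h.near
  have hnp : (0 : ℝ) < n := by linarith
  have hD9 : (2 : ℝ) ^ 9 ≤ D ^ 9 := pow_le_pow_left₀ (by norm_num) hD 9
  have hP9 : 1 ≤ P * D ^ 9 := by nlinarith
  have hn0W : P * 4 * W ≤ n0 := by
    refine le_trans ?_ c4
    refine mul_le_mul_of_nonneg_right ?_ hWp.le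
    refine mul_le_mul_of_nonneg_left ?_ hPp.le
    linarith
  have hn0W4 : 4 * W ≤ n0 := by nlinarith
  have hn0p : (0 : ℝ) < n0 := by nlinarith
  have hn0W1 : W ≤ n0 := by nlinarith
  have hn01 : (1 : ℝ) ≤ n0 := by linarith
  have hn : 1 ≤ n := by exact_mod_cast c1
  have hn0 : 1 ≤ n0 := by exact_mod_cast hn01
  have hrho := G.rho_pos
  have hrho4 := GSum.rho_le G
  have hrhoD : D⁻¹ ≤ G.rho := h.cls.rho_ge
  have hmp : 0 < G.mbar := by linarith
  have hhp : 0 < G.hbar := by linarith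
  have hsp : 0 < G.sig2 := G.sig2_pos
  -- powers
  have pw : ∀ (a b : ℕ), a ≤ 3 * K + 10 → b ≤ 3 * K + 10 → D ^ a * W ^ b ≤ (D * W) ^ (3 * K + 10) := by
    intro a b ha hb
    rw [mul_pow]
    exact mul_le_mul (pow_le_pow_right₀ hD1 ha) (pow_le_pow_right₀ hW1 hb) (by positivity)
      (by positivity)
  have hPD : P * D ^ 2 = D ^ (K + 2) := by rw [hPdef]; ring
  have hPD2 : P * D ^ 2 = D ^ (K + 2) := by rw [hPdef]; ring
  -- eps
  have hsn0 : (1 : ℝ) ≤ Real.sqrt n0 := by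
    rw [show (1 : ℝ) = Real.sqrt 1 by simp]
    exact Real.sqrt_le_sqrt hn01
  have hε0 := h.eps_nonneg
  have hεW : eps' * n0 ≤ W := by
    refine le_trans ?_ h.eps_le
    refine mul_le_mul_of_nonneg_left ?_ hε0
    nlinarith
  have hε'1 : eps' ≤ 1 := by
    by_contra hcon
    push Not at hcon
    nlinarith
  have hεeq : eps = 2 * G.sig2 * eps' / G.hbar := by
    rw [eq_div_iff hhp.ne', mul_comm]
    exact h.eps_eq
  have hε_le : eps ≤ 2 * P * eps' := by
    rw [hεeq, div_le_iff₀ hhp]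
    have a1 : 2 * G.sig2 * eps' ≤ 2 * P * eps' := by
      refine mul_le_mul_of_nonneg_right ?_ hε0
      linarith
    have a2 : 2 * P * eps' * 1 ≤ 2 * P * eps' * G.hbar :=
      mul_le_mul_of_nonneg_left h1 (by positivity)
    linarith
  have hε_nn : 0 ≤ eps := by
    rw [hεeq]; positivity
  have hε1 : eps ≤ 1 := by
    refine hε_le.trans ?_
    by_contra hcon
    push Not at hcon
    have a1 : 1 * (n0 : ℝ) < 2 * P * eps' * n0 := mul_lt_mul_of_pos_right hcon hn0p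
    have a2 : 2 * P * eps' * n0 ≤ 2 * P * W := by nlinarith
    nlinarith
  -- n √n ≤ D ^ (2K+2) n0 √n0
  have hnn : (n : ℝ) * Real.sqrt n ≤ D ^ (2 * K + 4) * ((n0 : ℝ) * Real.sqrt n0) := by
    have a1 : Real.sqrt n ≤ D ^ (K + 2) * Real.sqrt n0 := by
      have b1 : Real.sqrt n ≤ Real.sqrt (D ^ (K + 2) * n0) := by
        refine Real.sqrt_le_sqrt ?_
        rw [← hPD]; exact c2
      have b2 : Real.sqrt (D ^ (K + 2) * n0) = Real.sqrt (D ^ (K + 2)) * Real.sqrt n0 :=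
        Real.sqrt_mul (by positivity) _
      have b3 : Real.sqrt (D ^ (K + 2)) ≤ D ^ (K + 2) := by
        rw [Real.sqrt_le_left (by positivity)]
        have : (1 : ℝ) ≤ D ^ (K + 2) := one_le_pow₀ hD1
        nlinarith
      rw [b2] at b1
      exact b1.trans (mul_le_mul_of_nonneg_right b3 (Real.sqrt_nonneg _))
    have a2 : (n : ℝ) ≤ D ^ (K + 2) * n0 := by rw [← hPD]; exact c2
    calc (n : ℝ) * Real.sqrt n ≤ (D ^ (K + 2) * n0) * (D ^ (K + 2) * Real.sqrt n0) :=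
          mul_le_mul a2 a1 (Real.sqrt_nonneg _) (by positivity)
      _ = _ := by ring
  have hε'n : eps' * ((n : ℝ) * Real.sqrt n) ≤ D ^ (2 * K + 4) * W := by
    calc eps' * ((n : ℝ) * Real.sqrt n)
        ≤ eps' * (D ^ (2 * K + 4) * ((n0 : ℝ) * Real.sqrt n0)) :=
          mul_le_mul_of_nonneg_left hnn hε0
      _ = D ^ (2 * K + 4) * (eps' * ((n0 : ℝ) * Real.sqrt n0)) := by ring
      _ ≤ D ^ (2 * K + 4) * W := mul_le_mul_of_nonneg_left h.eps_le (by positivity)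
  have hnnp : 0 ≤ (n : ℝ) * Real.sqrt n := by positivity
  refine ⟨⟨hn, hn0, c5, hn0W1, ?_, ?_⟩, ⟨hε_nn, hε1, hε'1, ?_, ?_⟩, ?_⟩
  · refine c2.trans ?_
    refine mul_le_mul_of_nonneg_right ?_ hn0p.le
    rw [hPD]
    exact pow_le_pow_right₀ hD1 (by omega)
  · refine c3.trans ?_
    refine mul_le_mul_of_nonneg_right ?_ hnp.le
    rw [hPD2]
    exact pow_le_pow_right₀ hD1 (by omega)
  · calc eps * ((n : ℝ) * Real.sqrt n) ≤ 2 * P * eps' * ((n : ℝ) * Real.sqrt n) :=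
          mul_le_mul_of_nonneg_right hε_le hnnp
      _ = 2 * P * (eps' * ((n : ℝ) * Real.sqrt n)) := by ring
      _ ≤ 2 * P * (D ^ (2 * K + 4) * W) := mul_le_mul_of_nonneg_left hε'n (by positivity)
      _ ≤ D * P * (D ^ (2 * K + 4) * W) := by
          refine mul_le_mul_of_nonneg_right ?_ (by positivity)
          exact mul_le_mul_of_nonneg_right hD hPp.le
      _ = D ^ (3 * K + 5) * W ^ 1 := by rw [hPdef]; ring
      _ ≤ _ := pw _ _ (by omega) (by omega)
  · calc eps' * ((n : ℝ) * Real.sqrt n) ≤ D ^ (2 * K + 4) * W ^ 1 := by rw [pow_one]; exact hε'n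
      _ ≤ _ := pw _ _ (by omega) (by omega)
  · intro w hre hw
    obtain ⟨x1, x2⟩ := norm_exp_small hw (Nat.lt_of_lt_of_le Nat.one_pos hn) c5
    obtain ⟨y1, y2⟩ := norm_exp_small hw (Nat.lt_of_lt_of_le Nat.one_pos hn0) hn0W1
    have hlt : ∀ k : ℕ, 1 ≤ k → Real.exp (-(1 / (k : ℝ))) < 1 := by
      intro k hk
      have hk' : (0 : ℝ) < k := by exact_mod_cast hk
      rw [Real.exp_lt_one_iff]
      have : 0 < 1 / (k : ℝ) := by positivity
      linarith
    have r1 : (G.rho : ℂ) - zn G.rho w n = (G.rho : ℂ) * (1 - Complex.exp (-(w / n))) := by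
      unfold zn; ring
    have r2 : (1 / 4 : ℂ) - zn (1 / 4) w n0 = (1 / 4 : ℂ) * (1 - Complex.exp (-(w / n0))) := by
      unfold zn; push_cast; ring
    have n1 : ‖(G.rho : ℂ) - zn G.rho w n‖ = G.rho * ‖1 - Complex.exp (-(w / n))‖ := by
      rw [r1, norm_mul, Complex.norm_real, Real.norm_of_nonneg hrho.le]
    have n2 : ‖(1 / 4 : ℂ) - zn (1 / 4) w n0‖ = 1 / 4 * ‖1 - Complex.exp (-(w / n0))‖ := by
      rw [r2, norm_mul]
      congr 1
      norm_num
    have hnn0 : (n : ℝ) / n0 ≤ D ^ (K + 2) := by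
      rw [div_le_iff₀ hn0p, ← hPD]; exact c2
    refine ⟨?_, ?_, ?_, ?_, ?_, ?_, ?_⟩
    · unfold zn
      rw [norm_mul, Complex.norm_real, Real.norm_of_nonneg hrho.le, norm_exp_eq hre]
      exact mul_lt_of_lt_one_right hrho (hlt n hn)
    · unfold zn
      rw [norm_mul, norm_exp_eq hre]
      have := hlt n0 hn0
      have e : ‖((1 / 4 : ℝ) : ℂ)‖ = 1 / 4 := by
        rw [Complex.norm_real]; norm_num
      rw [e]
      linarith
    · rw [n2]
      have a1 : W / n0 ≤ 1 / 4 := by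
        rw [div_le_iff₀ hn0p]; linarith
      linarith
    · rw [n2]
      calc 1 / 4 * ‖1 - Complex.exp (-(w / n0))‖ * n ≤ 1 / 4 * (2 * (W / n0)) * n := by
            refine mul_le_mul_of_nonneg_right ?_ hnp.le
            linarith
        _ = 1 / 2 * (W * (n / n0)) := by ring
        _ ≤ 1 * (W * D ^ (K + 2)) := by
            refine mul_le_mul (by norm_num) ?_ (by positivity) (by norm_num)
            exact mul_le_mul_of_nonneg_left hnn0 hWp.le
        _ = D ^ (K + 2) * W ^ 1 := by ring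
        _ ≤ _ := pw _ _ (by omega) (by omega)
    · rw [n1]
      calc G.rho * ‖1 - Complex.exp (-(w / n))‖ * n ≤ 1 / 2 * (2 * (W / n)) * n := by
            refine mul_le_mul_of_nonneg_right ?_ hnp.le
            exact mul_le_mul hrho4 x1 (norm_nonneg _) (by norm_num)
        _ = W := by field_simp
        _ ≤ D ^ 0 * W ^ 1 := by
            rw [pow_zero, pow_one]; linarith
        _ ≤ _ := pw _ _ (by omega) (by omega)
    · rw [n1]
      have a1 : 1 - Real.exp (-(1 / (n : ℝ))) ≤ ‖1 - Complex.exp (-(w / n))‖ := by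
        have := norm_sub_norm_le (1 : ℂ) (Complex.exp (-(w / n)))
        rw [norm_one, norm_exp_eq hre] at this
        exact this
      have a2 := exp_lower hn
      have a3 : 1 / (2 * (n : ℝ)) ≤ ‖1 - Complex.exp (-(w / n))‖ := a2.trans a1
      calc (D ^ (3 * K + 10))⁻¹ ≤ (D ^ 2)⁻¹ :=
            inv_anti₀ (by positivity) (pow_le_pow_right₀ hD1 (by omega))
        _ = D⁻¹ * D⁻¹ := by rw [pow_two, mul_inv]
        _ ≤ D⁻¹ * (1 / 2) := mul_le_mul_of_nonneg_left (inv_le_half hD) (inv_pos.2 hDp).le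
        _ = D⁻¹ * (1 / (2 * (n : ℝ))) * n := by field_simp
        _ ≤ G.rho * ‖1 - Complex.exp (-(w / n))‖ * n := by
            refine mul_le_mul_of_nonneg_right ?_ hnp.le
            exact mul_le_mul hrhoD a3 (by positivity) hrho.le
    · have hrhoC : (G.rho : ℂ) ≠ 0 := by exact_mod_cast hrho.ne'
      have hnC : (n : ℂ) ≠ 0 := by exact_mod_cast hnp.ne'
      have hn0C : (n0 : ℂ) ≠ 0 := by exact_mod_cast hn0p.ne'
      set u : ℂ := 1 - Complex.exp (-(w / n)) with hu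
      set u' : ℂ := 1 - Complex.exp (-(w / n0)) with hu'
      have e1 : 1 - 4 * zn (1 / 4) w n0 = u' := by
        rw [hu']; unfold zn; push_cast; ring
      have e2 : 1 - zn G.rho w n / (G.rho : ℂ) = u := by
        rw [hu]; unfold zn
        rw [mul_div_cancel_left₀ _ hrhoC]
      rw [e1, e2]
      have e3 : 2 * (G.sig2 : ℂ) * u' - (G.mbar : ℂ) * u =
          2 * (G.sig2 : ℂ) * (u' - w / n0) - (G.mbar : ℂ) * (u - w / n) +
            w * ((2 * (G.sig2 : ℂ) * n - n0 * (G.mbar : ℂ)) / (n * n0)) := by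
        field_simp
        ring
      have e4 : ‖(2 * (G.sig2 : ℂ) * n - n0 * (G.mbar : ℂ)) / ((n : ℂ) * n0)‖ ≤
          P / (n * n0) := by
        have f1 : (2 * (G.sig2 : ℂ) * n - n0 * (G.mbar : ℂ)) / ((n : ℂ) * n0) =
            (((2 * G.sig2 * n - n0 * G.mbar) / (n * n0) : ℝ) : ℂ) := by
          push_cast; ring
        rw [f1, Complex.norm_real, Real.norm_eq_abs, abs_div, abs_of_pos (mul_pos hnp hn0p)]
        refine div_le_div_of_nonneg_right ?_ (by positivity)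
        rw [abs_sub_comm]
        exact h.near.trans m2
      have e5 : ‖2 * (G.sig2 : ℂ) * (u' - w / n0)‖ ≤ 2 * P * (W / n0) ^ 2 := by
        rw [norm_mul, norm_mul, Complex.norm_real, Real.norm_of_nonneg hsp.le]
        have : ‖(2 : ℂ)‖ = 2 := by norm_num
        rw [this]
        refine mul_le_mul ?_ y2 (norm_nonneg _) (by positivity)
        linarith
      have e6 : ‖(G.mbar : ℂ) * (u - w / n)‖ ≤ P * (W / n) ^ 2 := by
        rw [norm_mul, Complex.norm_real, Real.norm_of_nonneg hmp.le]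
        exact mul_le_mul m2 x2 (norm_nonneg _) hPp.le
      have e7 : ‖w * ((2 * (G.sig2 : ℂ) * n - n0 * (G.mbar : ℂ)) / (n * n0))‖ ≤
          W * (P / (n * n0)) := by
        rw [norm_mul]
        exact mul_le_mul hw e4 (norm_nonneg _) hWp.le
      have e8 : ‖2 * (G.sig2 : ℂ) * u' - (G.mbar : ℂ) * u‖ ≤
          2 * P * (W / n0) ^ 2 + P * (W / n) ^ 2 + W * (P / (n * n0)) := by
        rw [e3]
        refine (norm_add_le _ _).trans ?_
        refine add_le_add ((norm_sub_le _ _).trans (add_le_add e5 e6)) e7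
      have hr0 : 0 ≤ (n : ℝ) / n0 := by positivity
      have hDK1 : (1 : ℝ) ≤ D ^ (K + 2) := one_le_pow₀ hD1
      calc ‖2 * (G.sig2 : ℂ) * u' - (G.mbar : ℂ) * u‖ * (n : ℝ) ^ 2
          ≤ (2 * P * (W / n0) ^ 2 + P * (W / n) ^ 2 + W * (P / (n * n0))) * (n : ℝ) ^ 2 :=
            mul_le_mul_of_nonneg_right e8 (by positivity)
        _ = 2 * P * W ^ 2 * ((n : ℝ) / n0) ^ 2 + P * W ^ 2 + P * W * ((n : ℝ) / n0) := by
            field_simp
        _ ≤ 2 * P * W ^ 2 * (D ^ (K + 2)) ^ 2 + P * W ^ 2 * (D ^ (K + 2)) ^ 2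
              + P * W ^ 2 * (D ^ (K + 2)) ^ 2 := by
            have g1 : ((n : ℝ) / n0) ^ 2 ≤ (D ^ (K + 2)) ^ 2 := pow_le_pow_left₀ hr0 hnn0 2
            have g2 : (1 : ℝ) ≤ (D ^ (K + 2)) ^ 2 := one_le_pow₀ hDK1
            have g3 : W * ((n : ℝ) / n0) ≤ W ^ 2 * (D ^ (K + 2)) ^ 2 := by
              refine mul_le_mul (le_self_pow₀ hW1 (by norm_num)) ?_ hr0 (by positivity)
              exact hnn0.trans (le_self_pow₀ hDK1 (by norm_num))
            have g4 : 2 * P * W ^ 2 * ((n : ℝ) / n0) ^ 2 ≤ 2 * P * W ^ 2 * (D ^ (K + 2)) ^ 2 :=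
              mul_le_mul_of_nonneg_left g1 (by positivity)
            have g5 : P * W ^ 2 ≤ P * W ^ 2 * (D ^ (K + 2)) ^ 2 :=
              le_mul_of_one_le_right (by positivity) g2
            have g6 : P * W * ((n : ℝ) / n0) ≤ P * W ^ 2 * (D ^ (K + 2)) ^ 2 := by
              have := mul_le_mul_of_nonneg_left g3 hPp.le
              calc P * W * ((n : ℝ) / n0) = P * (W * ((n : ℝ) / n0)) := by ring
                _ ≤ P * (W ^ 2 * (D ^ (K + 2)) ^ 2) := this
                _ = _ := by ring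
            linarith
        _ = 2 ^ 2 * (P * W ^ 2 * (D ^ (K + 2)) ^ 2) := by ring
        _ ≤ D ^ 2 * (P * W ^ 2 * (D ^ (K + 2)) ^ 2) := by
            refine mul_le_mul_of_nonneg_right ?_ (by positivity)
            exact pow_le_pow_left₀ (by norm_num) hD 2
        _ = D ^ (3 * K + 6) * W ^ 2 := by rw [hPdef]; ring
        _ ≤ _ := pw _ _ (by omega) (by omega)

end Pool.Agent.KCG
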